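import Pool.Agent.X200.Cm.Open

/-!
# The complement of the safety condition has general memory at most three
-/

set_option autoImplicit false

namespace Pool.Agent.X200.Cm

open St Col

variable {A : Arena Col}

/-- The maximal winning level of a label outside the attractor. -/
theorem exists_level {N : ℕ} (hN : ∀ v n, N ≤ n → WinB A v (dd n) → v ∈ UD A) (v : A.V) (b : Bool) :
    ∃ n, v ∉ Att A → ∀ n', WinB A v (ab b n') → WinB A v (ab b n) ∧ n' ≤ n ∧ n < N := by
  classical
  by_cases h : ∃ n', v ∉ Att A ∧ WinB A v (ab b n')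
  · obtain ⟨n', hv, hn'⟩ := h
    have hlt : ∀ n, WinB A v (ab b n) → n < N := by
      intro n hn
      by_contra h2
      exact hv (att_of_win hN hn b n rfl (by omega))
    let S : Set ℕ := {n | WinB A v (ab b n)}
    have hfin : S.Finite := (Set.finite_Iio N).subset fun n hn => hlt n hn
    obtain ⟨n, hn, hmax⟩ := Set.exists_max_image S id hfin ⟨n', hn'⟩
    exact ⟨n, fun _ m hm => ⟨hn, hmax m hm, hlt n hn⟩⟩
  · exact ⟨0, fun hv n' hn' => absurd ⟨n', hv, hn'⟩ h⟩

theorem exists_edge {v : A.V} {q : St} (hv : v ∈ A.P) (h : WinB A v q) :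
    ∃ e ∈ A.E, e.1 = v ∧ WinB A e.2.2 (stp q e.2.1) := (winB_step h).1 hv

/-- The attractor edge. -/
theorem exists_att_edge (v : A.V) : ∃ e ∈ A.E, e.1 = v ∧
    (v ∈ A.P → ∀ k, v ∈ AttN A (k + 1) → okE A (AttN A k) e) := by
  classical
  by_cases h : v ∈ A.P ∧ ∃ k, v ∈ AttN A (k + 1)
  · obtain ⟨hv, hk⟩ := h
    rcases Nat.find_spec hk with ⟨-, e, he, h1, h2⟩ | ⟨h, -⟩
    · exact ⟨e, he, h1, fun _ k hk' => okE_mono (attN_mono (Nat.find_min' hk hk')) h2⟩
    · exact absurd hv h
  · obtain ⟨e, he, h1⟩ := A.out v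
    exact ⟨e, he, h1, fun hv k hk => absurd ⟨hv, k, hk⟩ h⟩

open Classical in
theorem genOk_compl : GenOk Wsᶜ 3 := by
  refine ⟨by norm_num, fun A => ?_⟩
  obtain ⟨N, hN⟩ := exists_N0 A
  choose lv hlv using (exists_level hN)
  choose eA heA using (exists_att_edge (A := A))
  -- the edges in the countdown phase
  have h1 : ∀ v : A.V, ∃ e ∈ A.E, e.1 = v ∧
      (v ∈ A.P → ∀ k, WinB A v (dd k) → WinB A e.2.2 (stp (dd k) e.2.1)) := by
    intro v
    by_cases hv : v ∈ A.P
    · obtain ⟨e, he, h1, h2⟩ := exists_uniform hv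
      exact ⟨e, he, h1, fun _ => h2⟩
    · obtain ⟨e, he, h1⟩ := A.out v
      exact ⟨e, he, h1, fun h => absurd h hv⟩
  choose eD heD using h1
  -- the edges outside the attractor
  have h2 : ∀ (v : A.V) (b : Bool), ∃ e ∈ A.E, e.1 = v ∧
      (v ∈ A.P → WinB A v (ab b (lv v b)) → WinB A e.2.2 (stp (ab b (lv v b)) e.2.1)) := by
    intro v b
    by_cases hv : v ∈ A.P ∧ WinB A v (ab b (lv v b))
    · obtain ⟨e, he, h1, h2⟩ := exists_edge hv.1 hv.2
      exact ⟨e, he, h1, fun _ _ => h2⟩
    · obtain ⟨e, he, h1⟩ := A.out v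
      exact ⟨e, he, h1, fun h3 h4 => absurd ⟨h3, h4⟩ hv⟩
  choose eW heW using h2
  let f : A.V → Fin 3 → A.Ed := fun v m =>
    if m = 2 then eD v else if v ∈ Att A then eA v else eW v (bt m)
  let δ : Fin 3 → A.Ed → Fin 3 := fun m e =>
    if m = 2 then 2 else if e.1 ∈ Att A then (if e.2.1 = a ∨ e.2.1 = s then m else 2)
    else l3 (stp (ab (bt m) (lv e.1 (bt m))) e.2.1)
  have fD : ∀ v m, m = 2 → f v m = eD v := fun v m h => if_pos h
  have fA : ∀ v m, m ≠ 2 → v ∈ Att A → f v m = eA v := fun v m h h' => by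
    simp only [f]; rw [if_neg h, if_pos h']
  have fW : ∀ v m, m ≠ 2 → v ∉ Att A → f v m = eW v (bt m) := fun v m h h' => by
    simp only [f]; rw [if_neg h, if_neg h']
  refine ⟨0, δ, ?_⟩
  refine mk_strategy _ _ _ f ?_ ?_
  · intro v m
    simp only [f]
    split_ifs
    · exact ⟨(heD v).1, (heD v).2.1⟩
    · exact ⟨(heA v).1, (heA v).2.1⟩
    · exact ⟨(heW v (bt m)).1, (heW v (bt m)).2.1⟩
  rintro u ⟨τ, hτ, hw⟩ e m he hm0 hm hf
  have hu := winB_of_wins hτ hw
  set r : ℕ → St := fun n => Au.run (fun n => (e n).2.1) n with hr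
  have hr0 : r 0 = ab false 0 := rfl
  have hr1 : ∀ n, r (n + 1) = stp (r n) (e n).2.1 := fun n => rfl
  suffices hsuff : ∃ t, r t = bot by
    obtain ⟨t, ht⟩ := hsuff
    intro hcon
    exact hcon t ht
  -- the countdown phase
  have P1 : ∀ k t, m t = 2 → r t = dd k → WinB A (e t).1 (dd k) → ∃ t', r t' = bot := by
    intro k
    induction k with
    | zero =>
      intro t hmt hrt hwt
      have h5 : WinB A (e t).2.2 (stp (dd 0) (e t).2.1) := by
        by_cases hP : (e t).1 ∈ A.P
        · have h6 := hf t hP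
          have h7 : e t = eD (e t).1 := h6.trans (fD _ _ hmt)
          have h8 := (heD (e t).1).2.2 hP 0 hwt
          rw [← h7] at h8
          exact h8
        · exact (winB_step hwt).2 hP (e t) (he.2 t).1 rfl
      refine ⟨t + 1, ?_⟩
      rw [hr1, hrt]
      rcases hc : (e t).2.1 with _ | _ | _ | _ | _
      · rfl
      · rfl
      · rfl
      · rfl
      · rw [hc] at h5; exact absurd h5 not_winB_top
    | succ k ih =>
      intro t hmt hrt hwt
      have h5 : WinB A (e t).2.2 (stp (dd (k + 1)) (e t).2.1) := by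
        by_cases hP : (e t).1 ∈ A.P
        · have h6 := hf t hP
          have h7 : e t = eD (e t).1 := h6.trans (fD _ _ hmt)
          have h8 := (heD (e t).1).2.2 hP (k + 1) hwt
          rw [← h7] at h8
          exact h8
        · exact (winB_step hwt).2 hP (e t) (he.2 t).1 rfl
      have h6 : m (t + 1) = 2 := by
        rw [hm]; simp only [δ, hmt, if_true]
      have h7 : stp (dd (k + 1)) (e t).2.1 = dd k := by
        rcases hc : (e t).2.1 with _ | _ | _ | _ | _
        · rfl
        · rfl
        · rfl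
        · rfl
        · rw [hc] at h5; exact absurd h5 not_winB_top
      refine ih (t + 1) h6 ?_ ?_
      · rw [hr1, hrt, h7]
      · rw [(he.2 t).2, ← h7]; exact h5
  have P1' : ∀ b n t, m (t + 1) = 2 → r t = ab b n → ((e t).2.1 = x ∨ (e t).2.1 = y) →
      (∀ k, r (t + 1) = dd k → WinB A (e (t + 1)).1 (dd k)) → ∃ t', r t' = bot := by
    intro b n t h1 h2 h3 h4
    rcases h3 with h3 | h3
    · have h5 : r (t + 1) = dd (2 * n + bit (!b)) := by rw [hr1, h2, h3]; rfl
      exact P1 _ _ h1 h5 (h4 _ h5)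
    · have h5 : r (t + 1) = dd (2 * n + bit b) := by rw [hr1, h2, h3]; rfl
      exact P1 _ _ h1 h5 (h4 _ h5)
  -- the attractor phase
  have P2 : ∀ k t b, m t ≠ 2 → r t = ab b t → (e t).1 ∈ AttN A k → ∃ t', r t' = bot := by
    intro k
    induction k with
    | zero => intro t b _ _ h; exact absurd h (Set.notMem_empty _)
    | succ k ih =>
      intro t b hmt hrt hat
      have hAtt : (e t).1 ∈ Att A := ⟨_, hat⟩
      have h5 : okE A (AttN A k) (e t) := by
        by_cases hP : (e t).1 ∈ A.P
        · have h6 := hf t hP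
          have h7 : e t = eA (e t).1 := h6.trans (fA _ _ hmt hAtt)
          have h8 := (heA (e t).1).2.2 hP k hat
          rw [← h7] at h8
          exact h8
        · rcases hat with ⟨h, -⟩ | ⟨-, h⟩
          · exact absurd h hP
          · exact h (e t) (he.2 t).1 rfl
      have h6 : m (t + 1) = if (e t).2.1 = a ∨ (e t).2.1 = s then m t else 2 := by
        rw [hm]; simp only [δ, hmt, if_false, hAtt, if_true]
      rcases h5 with ⟨h5, h7⟩ | ⟨h5, h7⟩
      · refine P1' b t t ?_ hrt h5 ?_
        · rw [h6]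
          rcases h5 with h5 | h5 <;> simp [h5]
        · intro j _
          rw [(he.2 t).2]
          exact h7 j
      · have h8 : m (t + 1) ≠ 2 := by
          rw [h6, if_pos h5]; exact hmt
        rcases h5 with h5 | h5
        · exact ih (t + 1) b h8 (by rw [hr1, hrt, h5]; rfl) (by rw [(he.2 t).2]; exact h7)
        · exact ih (t + 1) _ h8 (by rw [hr1, hrt, h5]; rfl) (by rw [(he.2 t).2]; exact h7)
  -- the first phase
  have P3 : ∀ j t b, N ≤ t + j → m t ≠ 2 → r t = ab b t → (e t).1 ∉ Att A →
      WinB A (e t).1 (ab (bt (m t)) (lv (e t).1 (bt (m t)))) →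
      sle (r t) (ab (bt (m t)) (lv (e t).1 (bt (m t)))) → ∃ t', r t' = bot := by
    intro j
    induction j with
    | zero =>
      intro t b hj hmt hrt hat hwt hle
      have h5 := (hlv (e t).1 (bt (m t)) hat _ hwt).2.2
      rw [hrt] at hle
      simp only [sle] at hle
      omega
    | succ j ih =>
      intro t b hj hmt hrt hat hwt hle
      set p : St := ab (bt (m t)) (lv (e t).1 (bt (m t))) with hp
      have h5 : WinB A (e t).2.2 (stp p (e t).2.1) := by
        by_cases hP : (e t).1 ∈ A.P
        · have h6 := hf t hP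
          have h7 : e t = eW (e t).1 (bt (m t)) := h6.trans (fW _ _ hmt hat)
          have h8 := (heW (e t).1 (bt (m t))).2.2 hP hwt
          rw [← h7] at h8
          exact h8
        · exact (winB_step hwt).2 hP (e t) (he.2 t).1 rfl
      have h6 : m (t + 1) = l3 (stp p (e t).2.1) := by
        rw [hm]; simp only [δ, hmt, if_false, hat, hp]
      have h7 : sle (r (t + 1)) (stp p (e t).2.1) := by
        rw [hr1]; exact stp_mono _ _ _ hle
      have hbt : ∀ b : Bool, bt (if b then 1 else 0) = b := by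
        intro b; cases b <;> simp [bt]
      -- staying in the first phase
      have key : ∀ b' b'', stp p (e t).2.1 = ab b' (lv (e t).1 (bt (m t)) + 1) →
          r (t + 1) = ab b'' (t + 1) → ∃ t', r t' = bot := by
        intro b' b'' h8 h9
        rw [h8] at h5 h6 h7
        have h10 : m (t + 1) ≠ 2 := by
          rw [h6]; cases b' <;> simp [l3]
        have h11 : bt (m (t + 1)) = b' := by
          rw [h6]; exact hbt b'
        by_cases h12 : (e (t + 1)).1 ∈ Att A
        · obtain ⟨k, hk⟩ := h12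
          exact P2 k (t + 1) b'' h10 h9 hk
        · have h13 := hlv (e (t + 1)).1 b' h12 _ (by rw [(he.2 t).2]; exact h5)
          refine ih (t + 1) b'' (by omega) h10 h9 h12 ?_ ?_
          · rw [h11]; exact h13.1
          · rw [h11]
            refine sle_trans _ _ _ h7 ?_
            simp only [sle]
            have := h13.2.1
            rcases Nat.lt_or_eq_of_le this with h14 | h14
            · exact Or.inl h14
            · exact Or.inr ⟨h14, trivial⟩
      rcases hc : (e t).2.1 with _ | _ | _ | _ | _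
      · exact key _ _ (by rw [hc]; rfl) (by rw [hr1, hrt, hc]; rfl)
      · exact key _ _ (by rw [hc]; rfl) (by rw [hr1, hrt, hc]; rfl)
      · refine P1' b t t ?_ hrt (Or.inl hc) ?_
        · rw [h6, hc]; rfl
        · intro k hk
          rw [hk] at h7
          rw [(he.2 t).2]
          exact winB_anti h5 _ h7
      · refine P1' b t t ?_ hrt (Or.inr hc) ?_
        · rw [h6, hc]; rfl
        · intro k hk
          rw [hk] at h7
          rw [(he.2 t).2]
          exact winB_anti h5 _ h7
      · rw [hc] at h5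
        exact absurd h5 not_winB_top
  -- the start
  have hm0' : m 0 ≠ 2 := by rw [hm0]; decide
  have hbt0 : bt (m 0) = false := by rw [hm0]; simp [bt]
  by_cases hAu : (e 0).1 ∈ Att A
  · obtain ⟨k, hk⟩ := hAu
    exact P2 k 0 false hm0' hr0 hk
  · have h5 := hlv (e 0).1 false hAu 0 (by rw [he.1]; exact hu)
    refine P3 N 0 false (by omega) hm0' hr0 hAu ?_ ?_
    · rw [hbt0]; exact h5.1
    · rw [hbt0, hr0]
      simp only [sle]
      rcases Nat.lt_or_eq_of_le h5.2.1 with h6 | h6
      · exact Or.inl h6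
      · exact Or.inr ⟨h6, trivial⟩

theorem genMem_compl : GenMem Wsᶜ ≤ 3 := by exact_mod_cast genMem_le genOk_compl

end Pool.Agent.X200.Cm
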