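import Pool.Agent.X200.Cm.Low

/-!
# The safety condition: summary
-/

set_option autoImplicit false

namespace Pool.Agent.X200.Cm

theorem run_foldl {C : Type} {K : ℕ} (B : Ranked C K) (w : ℕ → C) (n : ℕ) :
    B.run w n = ((List.range n).map w).foldl B.step B.q0 := by
  induction n with
  | zero => rfl
  | succ n ih =>
    rw [hist_succ, List.foldl_append, ← ih]
    rfl

theorem isSafety_Ws : IsSafety Ws := by
  refine ⟨{l | l.foldl Au.step Au.q0 = Au.bot}, ?_⟩
  ext w
  show (∀ n, Au.run w n ≠ Au.bot) ↔ _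
  simp only [run_foldl, Set.mem_setOf_eq, ne_eq]

theorem safe_main : Nat.card Col = 5 ∧ IsSafety Ws ∧ GenMem Ws ≤ 4 ∧ ChrMem Ws = ⊤ :=
  ⟨col_card, isSafety_Ws, by exact_mod_cast genMem_le genOk_Ws, chrMem_Ws⟩

end Pool.Agent.X200.Cm
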