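import Pool.Agent.X200.Cm.Pump

/-!
# Chromatic memory is infinite: the safety condition
-/

set_option autoImplicit false

namespace Pool.Agent.X200.Cm

open St Col

/-- Raw nodes. -/
def nd0 (n : ℕ) (b : Bool) (p : ℕ) : Bool × ℕ := (b && decide (p < n), min p (3 * n + 2))

/-- The nodes. -/
abbrev Nd (n : ℕ) : Type := Set.range (fun q : Bool × ℕ => nd0 n q.1 q.2)

/-- The node `p` on the branch `b`. -/
def nd (n : ℕ) (b : Bool) (p : ℕ) : Nd n := ⟨nd0 n b p, ⟨(b, p), rfl⟩⟩

instance (n : ℕ) : Finite (Nd n) := by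
  have h : (Set.range (fun q : Bool × ℕ => nd0 n q.1 q.2)).Finite := by
    refine Set.Finite.subset (Set.Finite.prod (Set.finite_univ) (Set.finite_Iic (3 * n + 2))) ?_
    rintro _ ⟨q, rfl⟩
    refine ⟨Set.mem_univ _, ?_⟩
    show min q.2 (3 * n + 2) ≤ 3 * n + 2
    exact min_le_right _ _
  exact h

theorem nd_surj {n : ℕ} (v : Nd n) : ∃ b p, v = nd n b p := by
  obtain ⟨_, ⟨q, rfl⟩⟩ := v
  exact ⟨q.1, q.2, rfl⟩

/-- Allowed colours. -/
def cok (k : ℕ) (b : Bool) (p : ℕ) (c : Col) : Prop :=
  if p < len k then c = wd k b p else if p = len k then (c = x ∨ c = y)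
  else if p < 3 * len k + 2 then c = a else c = g

theorem cok_exists (k : ℕ) (b : Bool) (p : ℕ) : ∃ c, cok k b p c := by
  unfold cok
  split_ifs
  · exact ⟨_, rfl⟩
  · exact ⟨x, Or.inl rfl⟩
  · exact ⟨_, rfl⟩
  · exact ⟨_, rfl⟩

theorem nd_eq {k : ℕ} {b b' : Bool} {p p' : ℕ} (h : nd (len k) b p = nd (len k) b' p') :
    nd (len k) b (p + 1) = nd (len k) b' (p' + 1) ∧ ∀ c, cok k b p c ↔ cok k b' p' c := by
  have h1 : nd0 (len k) b p = nd0 (len k) b' p' := congrArg Subtype.val h
  simp only [nd0, Prod.mk.injEq] at h1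
  obtain ⟨h1, h2⟩ := h1
  rcases Nat.lt_or_ge p (3 * len k + 2) with h3 | h3
  · have h4 : p' = p := by omega
    subst h4
    rcases Nat.lt_or_ge p' (len k) with h5 | h5
    · have h6 : b = b' := by simpa [h5] using h1
      subst h6
      exact ⟨rfl, fun c => Iff.rfl⟩
    · constructor
      · apply Subtype.ext
        show nd0 _ _ _ = nd0 _ _ _
        have h7 : ¬ (p' + 1 < len k) := by omega
        simp [nd0, h7]
      · intro c
        unfold cok
        simp only [show ¬ (p' < len k) by omega, if_false]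
  · have h4 : 3 * len k + 2 ≤ p' := by omega
    constructor
    · apply Subtype.ext
      show nd0 _ _ _ = nd0 _ _ _
      have h7 : ¬ (p' + 1 < len k) := by omega
      have h8 : ¬ (p + 1 < len k) := by omega
      simp only [nd0, h7, h8, decide_false, Bool.and_false, Prod.mk.injEq, true_and]
      omega
    · intro c
      unfold cok
      simp only [show ¬ (p' < len k) by omega, show ¬ (p < len k) by omega,
        show ¬ (p' = len k) by omega, show ¬ (p = len k) by omega,
        show ¬ (p' < 3 * len k + 2) by omega, show ¬ (p < 3 * len k + 2) by omega, if_false]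

/-- The arena. -/
def Ar (k : ℕ) : Arena Col where
  V := Nd (len k)
  finite_V := inferInstance
  nonempty_V := ⟨nd _ true 0⟩
  P := {nd (len k) false (len k)}
  E := {e | ∃ b p, e.1 = nd (len k) b p ∧ e.2.2 = nd (len k) b (p + 1) ∧ cok k b p e.2.1}
  finite_E := Set.toFinite _
  out := by
    intro v
    obtain ⟨b, p, rfl⟩ := nd_surj v
    obtain ⟨c, hc⟩ := cok_exists k b p
    exact ⟨(nd _ b p, c, nd _ b (p + 1)), ⟨b, p, rfl, rfl, hc⟩, rfl⟩

theorem nd_w (k : ℕ) (b : Bool) : nd (len k) b (len k) = nd (len k) false (len k) := by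
  apply Subtype.ext
  show nd0 _ _ _ = nd0 _ _ _
  simp [nd0]

theorem edge_det {k : ℕ} {e : (Ar k).Ed} (he : e ∈ (Ar k).E) {b : Bool} {p : ℕ}
    (h : e.1 = nd (len k) b p) : e.2.2 = nd (len k) b (p + 1) ∧ cok k b p e.2.1 := by
  obtain ⟨b', p', h1, h2, h3⟩ := he
  have h4 := nd_eq (h1.symm.trans h)
  exact ⟨h2.trans h4.1, (h4.2 _).1 h3⟩

theorem play_nd {k : ℕ} {e : ℕ → (Ar k).Ed} {b : Bool} (he : (Ar k).IsPlay (nd (len k) b 0) e)
    (m : ℕ) : (e m).1 = nd (len k) b m ∧ cok k b m (e m).2.1 := by
  have h1 : ∀ m, (e m).1 = nd (len k) b m := by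
    intro m
    induction m with
    | zero => exact he.1
    | succ m ih => rw [(he.2 m).2]; exact (edge_det (he.2 m).1 ih).1
  exact ⟨h1 m, (edge_det (he.2 m).1 (h1 m)).2⟩

theorem cok_facts {k : ℕ} {b : Bool} {w : ℕ → Col} (h : ∀ m, cok k b m (w m)) :
    (∀ m < len k, w m = wd k b m) ∧ (w (len k) = x ∨ w (len k) = y) ∧
    (∀ j < 2 * len k + 1, w (len k + 1 + j) = a) ∧ w (len k + 1 + (2 * len k + 1)) = g := by
  unfold cok at h
  refine ⟨fun m hm => ?_, ?_, fun j hj => ?_, ?_⟩
  · simpa [hm] using h m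
  · simpa using h (len k)
  · have := h (len k + 1 + j)
    rw [if_neg (by omega), if_neg (by omega), if_pos (by omega)] at this
    exact this
  · have := h (len k + 1 + (2 * len k + 1))
    rw [if_neg (by omega), if_neg (by omega), if_neg (by omega)] at this
    exact this

theorem nd_ne (k : ℕ) : nd (len k) false 0 ≠ nd (len k) true 0 := by
  intro h
  have h1 : nd0 (len k) false 0 = nd0 (len k) true 0 := congrArg Subtype.val h
  have h2 : 0 < len k := by unfold len; omega
  simp [nd0, h2] at h1

open Classical in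
/-- Protagonist wins from both starting nodes. -/
theorem exists_win {k : ℕ} (hk : 1 ≤ k) (b : Bool) :
    ∃ τ, (Ar k).IsStrategy τ ∧ (Ar k).WinsFrom Ws τ (nd (len k) b 0) := by
  let τ : (Ar k).V → List (Ar k).Ed → (Ar k).Ed := fun u l =>
    (nd (len k) false (len k), if u = nd (len k) true 0 then y else x,
      nd (len k) false (len k + 1))
  refine ⟨τ, ?_, ?_⟩
  · intro u l _ hP
    have hP' : (Ar k).last u l = nd (len k) false (len k) := hP
    rw [hP']
    refine ⟨⟨false, len k, rfl, rfl, ?_⟩, rfl⟩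
    unfold cok
    simp only [lt_irrefl, if_false, if_true]
    show (if u = nd (len k) true 0 then y else x) = x ∨ (if u = nd (len k) true 0 then y else x) = y
    split_ifs
    · exact Or.inr rfl
    · exact Or.inl rfl
  · intro e he hc
    obtain ⟨h1, h2, h3, h4⟩ := cok_facts (fun m => (play_nd he m).2)
    refine run_right hk b h1 h2 h3 ?_ h4
    have h5 := hc (len k) (by rw [(play_nd he (len k)).1, nd_w]; rfl)
    show good b (e (len k)).2.1 = 1
    rw [h5]
    cases b with
    | true =>
      have h6 : (τ (nd (len k) true 0) ((List.range (len k)).map e)).2.1 = y := if_pos rfl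
      rw [h6]; simp [good, bit]
    | false =>
      have h6 : (τ (nd (len k) false 0) ((List.range (len k)).map e)).2.1 = x := if_neg (nd_ne k)
      rw [h6]; simp [good, bit]

/-- For every strategy and start node there is a consistent play. -/
theorem exists_cons {C : Type} {A : Arena C} {τ : A.V → List A.Ed → A.Ed} (hτ : A.IsStrategy τ)
    (u : A.V) : ∃ e, A.IsPlay u e ∧ A.Consistent τ u e := by
  obtain ⟨e, h1, h2, -⟩ := exists_play_through hτ (u := u) (l := []) trivial (fc_nil _ _)
  exact ⟨e, h1, h2⟩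

open Classical in
theorem not_chrOk (k : ℕ) : ¬ ChrOk Ws k := by
  rintro ⟨hk, h⟩
  obtain ⟨m₀, δ, σ, hchr, hσ, hb, hopt⟩ := h (Ar k)
  -- the update function on colours
  let δc : Fin k → Col → Fin k := fun m c =>
    if h : ∃ e ∈ (Ar k).E, e.2.1 = c then δ m h.choose else m
  have hδ : ∀ m, ∀ e ∈ (Ar k).E, δ m e = δc m e.2.1 := by
    intro m e he
    have h1 : ∃ e' ∈ (Ar k).E, e'.2.1 = e.2.1 := ⟨e, he, rfl⟩
    simp only [δc]
    rw [dif_pos h1]
    exact hchr m e he _ h1.choose_spec.1 h1.choose_spec.2.symm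
  have hw : ∀ b : Bool, ∃ e, (Ar k).IsPlay (nd (len k) b 0) e ∧
      (Ar k).Consistent σ (nd (len k) b 0) e := fun b => exists_cons hσ _
  choose e he hc using hw
  let m : Bool → ℕ → Fin k := fun b t => ((List.range t).map (e b)).foldl δ m₀
  have hm : ∀ b, ∀ t < len k, m b (t + 1) = δc (m b t) (wd k b t) := by
    intro b t ht
    have h1 : m b (t + 1) = δ (m b t) (e b t) := by
      simp only [m, hist_succ, List.foldl_append, List.foldl_cons, List.foldl_nil]
    rw [h1, hδ _ _ ((he b).2 t).1]
    have h2 := (cok_facts (fun m => (play_nd (he b) m).2)).1 t ht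
    rw [show (e b t).2.1 = wd k b t from h2]
  have hmm : m true (len k) = m false (len k) := mem_wd rfl (hm true) (hm false)
  have hlast : ∀ b, (Ar k).last (nd (len k) b 0) ((List.range (len k)).map (e b)) =
      nd (len k) false (len k) := by
    intro b
    rw [(play_path (he b) (len k)).2, (play_nd (he b) (len k)).1, nd_w]
  have hs : σ (nd (len k) true 0) ((List.range (len k)).map (e true)) =
      σ (nd (len k) false 0) ((List.range (len k)).map (e false)) := by
    refine hb _ _ _ _ (play_path (he true) _).1 (play_path (he false) _).1 ?_ ?_ hmm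
    · rw [hlast, hlast]
    · rw [hlast]; rfl
  have hcol : (e true (len k)).2.1 = (e false (len k)).2.1 := by
    rw [hc true (len k) (by rw [(play_nd (he true) (len k)).1, nd_w]; rfl),
      hc false (len k) (by rw [(play_nd (he false) (len k)).1, nd_w]; rfl), hs]
  have hwin : ∀ b, good b (e b (len k)).2.1 ≠ 0 := by
    intro b h0
    obtain ⟨h1, h2, h3, -⟩ := cok_facts (fun m => (play_nd (he b) m).2)
    exact hopt _ (exists_win hk b) (e b) (he b) (hc b) _ (run_wrong hk b h1 h2 h3 h0)
  have h1 := hwin true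
  have h2 := hwin false
  rw [hcol] at h1
  unfold good at h1 h2
  split_ifs at h1 h2 with h
  · simp [bit] at h2
  · simp [bit] at h1

/-- The chromatic memory of the safety condition is infinite. -/
theorem chrMem_Ws : ChrMem Ws = ⊤ := chrMem_top not_chrOk

end Pool.Agent.X200.Cm
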