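import Pool.Agent.X200.Cm.PiGen
import Pool.Agent.X200.Cm.Low

/-!
# The prefix-independent condition has infinite chromatic memory
-/

set_option autoImplicit false

namespace Pool.Agent.X200.Cm

open St Col

theorem nd_end {k : ℕ} {b b' : Bool} {p p' : ℕ} (h : nd (len k) b p = nd (len k) b' p') :
    (p < 3 * len k + 2 ↔ p' < 3 * len k + 2) := by
  have h1 : nd0 (len k) b p = nd0 (len k) b' p' := congrArg Subtype.val h
  simp only [nd0, Prod.mk.injEq] at h1
  omega

open Classical in
/-- The successor of the node `p` on the branch `b`. -/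
noncomputable def nxt (k : ℕ) (b : Bool) (p : ℕ) : Option (Nd (len k)) :=
  if p < 3 * len k + 2 then some (nd (len k) b (p + 1)) else none

theorem nxt_eq {k : ℕ} {b b' : Bool} {p p' : ℕ} (h : nd (len k) b p = nd (len k) b' p') :
    nxt k b p = nxt k b' p' := by
  unfold nxt
  rw [(nd_eq h).1]
  have := nd_end h
  by_cases h1 : p < 3 * len k + 2
  · rw [if_pos h1, if_pos (this.1 h1)]
  · rw [if_neg h1, if_neg (fun h2 => h1 (this.2 h2))]

/-- The edges inside the gadget. -/
def InE (k : ℕ) (e : Option (Nd (len k)) × Option Col × Option (Nd (len k))) : Prop :=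
  ∃ b p c, e.1 = some (nd (len k) b p) ∧ cok k b p c ∧ e.2.1 = some c ∧ e.2.2 = nxt k b p

/-- The reset edges. -/
def ReE (k : ℕ) (e : Option (Nd (len k)) × Option Col × Option (Nd (len k))) : Prop :=
  e.1 = none ∧ e.2.1 = none ∧ ∃ b, e.2.2 = some (nd (len k) b 0)

/-- The arena with resets. -/
def Ap (k : ℕ) : Arena (Option Col) where
  V := Option (Nd (len k))
  finite_V := inferInstance
  nonempty_V := ⟨none⟩
  P := {some (nd (len k) false (len k))}
  E := {e | ReE k e ∨ InE k e}
  finite_E := Set.toFinite _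
  out := by
    intro v
    rcases v with _ | v
    · exact ⟨(none, none, some (nd _ true 0)), Or.inl ⟨rfl, rfl, true, rfl⟩, rfl⟩
    · obtain ⟨b, p, rfl⟩ := nd_surj v
      obtain ⟨c, hc⟩ := cok_exists k b p
      exact ⟨(some (nd _ b p), some c, nxt k b p), Or.inr ⟨b, p, c, rfl, hc, rfl, rfl⟩, rfl⟩

theorem edge_in {k : ℕ} {e : (Ap k).Ed} (he : e ∈ (Ap k).E) {b : Bool} {p : ℕ}
    (h : e.1 = some (nd (len k) b p)) :
    ∃ c, cok k b p c ∧ e.2.1 = some c ∧ e.2.2 = nxt k b p := by
  rcases he with ⟨h1, -⟩ | ⟨b', p', c, h1, h2, h3, h4⟩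
  · rw [h1] at h; exact absurd h (by simp)
  · have h5 : nd (len k) b' p' = nd (len k) b p := Option.some.inj (h1.symm.trans h)
    exact ⟨c, ((nd_eq h5).2 _).1 h2, h3, h4.trans (nxt_eq h5)⟩

theorem edge_re {k : ℕ} {e : (Ap k).Ed} (he : e ∈ (Ap k).E) (h : e.1 = none) :
    e.2.1 = none ∧ ∃ b, e.2.2 = some (nd (len k) b 0) := by
  rcases he with ⟨-, h2⟩ | ⟨b', p', c, h1, -⟩
  · exact h2
  · rw [h1] at h; exact absurd h (by simp)

theorem edge_none {k : ℕ} {e : (Ap k).Ed} (he : e ∈ (Ap k).E) (h : e.2.1 = none) : e.1 = none := by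
  rcases he with ⟨h1, -⟩ | ⟨b', p', c, h1, -, h3, -⟩
  · exact h1
  · rw [h3] at h; exact absurd h (by simp)

/-- One round of a play. -/
theorem round {k : ℕ} {e : ℕ → (Ap k).Ed} (he : ∀ n, e n ∈ (Ap k).E ∧ (e (n + 1)).1 = (e n).2.2)
    {T : ℕ} {b : Bool} (hT : (e T).2.2 = some (nd (len k) b 0)) :
    (∀ p ≤ 3 * len k + 2, (e (T + 1 + p)).1 = some (nd (len k) b p) ∧
      (e (T + 1 + p)).2.1 = some (((e (T + 1 + p)).2.1).getD a) ∧
      cok k b p (((e (T + 1 + p)).2.1).getD a)) ∧
    (e (T + 1 + (3 * len k + 2) + 1)).1 = none := by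
  have h1 : ∀ p ≤ 3 * len k + 2, (e (T + 1 + p)).1 = some (nd (len k) b p) := by
    intro p
    induction p with
    | zero => intro _; rw [show T + 1 + 0 = T + 1 by rfl, (he T).2]; exact hT
    | succ p ih =>
      intro hp
      rw [show T + 1 + (p + 1) = T + 1 + p + 1 by rfl, (he _).2]
      obtain ⟨c, -, -, h3⟩ := edge_in (he (T + 1 + p)).1 (ih (by omega))
      rw [h3]
      exact if_pos (by omega)
  refine ⟨fun p hp => ?_, ?_⟩
  · obtain ⟨c, h2, h3, -⟩ := edge_in (he (T + 1 + p)).1 (h1 p hp)
    refine ⟨h1 p hp, ?_, ?_⟩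
    · rw [h3]; rfl
    · rw [h3]; exact h2
  · rw [(he _).2]
    obtain ⟨c, -, -, h3⟩ := edge_in (he (T + 1 + (3 * len k + 2))).1 (h1 _ le_rfl)
    rw [h3]
    exact if_neg (by omega)

/-- The word of a round. -/
theorem round_word {k : ℕ} {b : Bool} {v : ℕ → Col} (h : ∀ p ≤ 3 * len k + 2, cok k b p (v p)) :
    (∀ m < len k, v m = wd k b m) ∧ (v (len k) = x ∨ v (len k) = y) ∧
    (∀ j < 2 * len k + 1, v (len k + 1 + j) = a) ∧ v (len k + 1 + (2 * len k + 1)) = g := by
  unfold cok at h
  refine ⟨fun m hm => ?_, ?_, fun j hj => ?_, ?_⟩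
  · have := h m (by omega)
    rwa [if_pos hm] at this
  · have := h (len k) (by omega)
    rwa [if_neg (lt_irrefl _), if_pos rfl] at this
  · have := h (len k + 1 + j) (by omega)
    rwa [if_neg (by omega), if_neg (by omega), if_pos (by omega)] at this
  · have := h (len k + 1 + (2 * len k + 1)) (by omega)
    rwa [if_neg (by omega), if_neg (by omega), if_neg (by omega)] at this

theorem some_w (k : ℕ) (b : Bool) :
    (some (nd (len k) b (len k)) : Option (Nd (len k))) ∈ (Ap k).P := by
  show some _ = some _
  rw [nd_w]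

open Classical in
/-- Protagonist wins from the reset node. -/
theorem exists_win_pi {k : ℕ} (hk : 1 ≤ k) :
    ∃ τ, (Ap k).IsStrategy τ ∧ (Ap k).WinsFrom Wp τ (none : Option (Nd (len k))) := by
  let lr : List (Ap k).Ed → Option (Nd (len k)) := fun l =>
    l.foldl (fun v e => if e.2.1 = none then e.2.2 else v) none
  let τ : (Ap k).V → List (Ap k).Ed → (Ap k).Ed := fun _ l =>
    (some (nd (len k) false (len k)),
      some (if lr l = some (nd (len k) true 0) then y else x), nxt k false (len k))
  refine ⟨τ, ?_, ?_⟩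
  · intro u l _ hP
    have hP' : (Ap k).last u l = some (nd (len k) false (len k)) := hP
    rw [hP']
    refine ⟨Or.inr ⟨false, len k, _, rfl, ?_, rfl, rfl⟩, rfl⟩
    unfold cok
    simp only [lt_irrefl, if_false, if_true]
    split_ifs
    · exact Or.inr rfl
    · exact Or.inl rfl
  · intro e he hc
    refine ⟨0, fun t _ hbad => ?_⟩
    obtain ⟨ht, m, -, hrun⟩ := hbad
    have h1 := edge_none (he.2 t).1 ht
    obtain ⟨-, b, hb⟩ := edge_re (he.2 t).1 h1
    obtain ⟨h2, -⟩ := round he.2 hb
    obtain ⟨w1, w2, w3, w4⟩ := round_word (v := fun p => ((e (t + 1 + p)).2.1).getD a)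
      (fun p hp => (h2 p hp).2.2)
    refine run_right hk b w1 w2 w3 ?_ w4 m hrun
    have hlr : ∀ p ≤ len k, lr ((List.range (t + 1 + p)).map e) = some (nd (len k) b 0) := by
      intro p
      induction p with
      | zero =>
        intro _
        simp only [lr, show t + 1 + 0 = t + 1 by rfl, hist_succ, List.foldl_append,
          List.foldl_cons, List.foldl_nil]
        rw [if_pos ht]
        exact hb
      | succ p ih =>
        intro hp
        have h3 : lr ((List.range (t + 1 + (p + 1))).map e) =
            if (e (t + 1 + p)).2.1 = none then (e (t + 1 + p)).2.2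
            else lr ((List.range (t + 1 + p)).map e) := by
          rw [show t + 1 + (p + 1) = t + 1 + p + 1 by rfl, hist_succ]
          simp only [lr, List.foldl_append, List.foldl_cons, List.foldl_nil]
          rfl
        rw [h3, if_neg (by rw [(h2 p (by omega)).2.1]; simp), ih (by omega)]
    have h5 := hc (t + 1 + len k) (by rw [(h2 (len k) (by omega)).1]; exact some_w k b)
    show good b (((e (t + 1 + len k)).2.1).getD a) = 1
    have h6 : (e (t + 1 + len k)).2.1 =
        some (if lr ((List.range (t + 1 + len k)).map e) = some (nd (len k) true 0) then y else x) := by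
      rw [h5]
    rw [h6, hlr _ le_rfl]
    cases b with
    | true => simp [good, bit]
    | false =>
      rw [if_neg (fun h => nd_ne k (Option.some.inj h))]
      simp [good, bit]

open Classical in
theorem not_chrOk_pi (k : ℕ) : ¬ ChrOk Wp k := by
  rintro ⟨hk, h⟩
  obtain ⟨m₀, δ, σ, hchr, hσ, hb, hopt⟩ := h (Ap k)
  -- the update function on colours
  let δc : Fin k → Option Col → Fin k := fun m c =>
    if h : ∃ e ∈ (Ap k).E, e.2.1 = c then δ m h.choose else m
  have hδ : ∀ m, ∀ e ∈ (Ap k).E, δ m e = δc m e.2.1 := by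
    intro m e he
    have h1 : ∃ e' ∈ (Ap k).E, e'.2.1 = e.2.1 := ⟨e, he, rfl⟩
    simp only [δc]
    rw [dif_pos h1]
    exact hchr m e he _ h1.choose_spec.1 h1.choose_spec.2.symm
  -- the memory after the word of a round
  let G : Fin k → Bool → ℕ → Fin k := fun m b n =>
    Nat.rec (δc m none) (fun p q => δc q (some (wd k b p))) n
  have hG0 : ∀ m b, G m b 0 = δc m none := fun m b => rfl
  have hG1 : ∀ m b p, G m b (p + 1) = δc (G m b p) (some (wd k b p)) := fun m b p => rfl
  have hGG : ∀ m, G m true (len k) = G m false (len k) := by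
    intro m
    exact mem_wd (δ := fun q c => δc q (some c)) rfl (fun t _ => hG1 m true t)
      (fun t _ => hG1 m false t)
  -- the choice
  let W : Option (Nd (len k)) := some (nd (len k) false (len k))
  have hF : ∀ q : Fin k, ∃ c : Option Col, ∀ u l, (Ap k).IsPath u l → (Ap k).last u l = W →
      l.foldl δ m₀ = q → (σ u l).2.1 = c := by
    intro q
    by_cases h1 : ∃ u l, (Ap k).IsPath u l ∧ (Ap k).last u l = W ∧ l.foldl δ m₀ = q
    · obtain ⟨u, l, h2, h3, h4⟩ := h1
      refine ⟨(σ u l).2.1, fun u' l' h5 h6 h7 => ?_⟩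
      rw [hb u' l' u l h5 h2 (h6.trans h3.symm) (by rw [h6]; rfl) (h7.trans h4.symm)]
    · exact ⟨none, fun u l h2 h3 h4 => absurd ⟨u, l, h2, h3, h4⟩ h1⟩
  choose F hF using hF
  let bad : Fin k → Bool := fun m => if F (G m true (len k)) = some y then false else true
  let ρ : List (Ap k).Ed → (Ap k).Ed := fun l =>
    if (Ap k).last (none : Option (Nd (len k))) l ∈ (Ap k).P then σ none l
    else if (Ap k).last (none : Option (Nd (len k))) l = (none : Option (Nd (len k))) then
      (none, none, some (nd (len k) (bad (l.foldl δ m₀)) 0))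
    else ((Ap k).out ((Ap k).last (none : Option (Nd (len k))) l)).choose
  obtain ⟨e, he, hr⟩ := exists_play (A := Ap k) (none : Option (Nd (len k))) ρ (by
    intro h hh
    simp only [ρ]
    split_ifs with h1 h2
    · exact hσ _ h hh h1
    · exact ⟨Or.inl ⟨rfl, rfl, _, rfl⟩, h2.symm⟩
    · exact ((Ap k).out ((Ap k).last (none : Option (Nd (len k))) h)).choose_spec)
  have hcons : (Ap k).Consistent σ (none : Option (Nd (len k))) e := by
    intro n hn
    rw [← (play_path he n).2] at hn
    rw [hr n]
    simp only [ρ]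
    rw [if_pos hn]
  let M : ℕ → Fin k := fun n => ((List.range n).map e).foldl δ m₀
  have hM : ∀ n, M (n + 1) = δc (M n) (e n).2.1 := by
    intro n
    have h1 : M (n + 1) = δ (M n) (e n) := by
      simp only [M, hist_succ, List.foldl_append, List.foldl_cons, List.foldl_nil]
    rw [h1, hδ _ _ (he.2 n).1]
  -- one round
  have hround : ∀ T, (e T).1 = (none : Option (Nd (len k))) →
      Bad (fun n => (e n).2.1) T ∧
        (e (T + 1 + (3 * len k + 2) + 1)).1 = (none : Option (Nd (len k))) := by
    intro T hT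
    have h1 : e T = (none, none, some (nd (len k) (bad (M T)) 0)) := by
      have h2 := hr T
      simp only [ρ] at h2
      rw [(play_path he T).2, hT] at h2
      rw [if_neg (by
        intro h3
        have h4 : (none : Option (Nd (len k))) = some (nd (len k) false (len k)) := h3
        exact absurd h4 (by simp)), if_pos rfl] at h2
      exact h2
    set b := bad (M T) with hbdef
    have h2 : (e T).2.2 = some (nd (len k) b 0) := by rw [h1]
    have h3 : (e T).2.1 = none := by rw [h1]
    obtain ⟨h4, h5⟩ := round he.2 h2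
    refine ⟨⟨h3, len k + 1 + (2 * len k + 1), ?_, ?_⟩, h5⟩
    · intro i hi
      show (e (T + 1 + i)).2.1 ≠ none
      rw [(h4 i (by omega)).2.1]
      simp
    · obtain ⟨w1, w2, w3, -⟩ := round_word (v := fun p => ((e (T + 1 + p)).2.1).getD a)
        (fun p hp => (h4 p hp).2.2)
      refine run_wrong hk b w1 w2 w3 ?_
      -- the memory at the choice node
      have h6 : ∀ p ≤ len k, M (T + 1 + p) = G (M T) b p := by
        intro p
        induction p with
        | zero =>
          intro _
          rw [show T + 1 + 0 = T + 1 by rfl, hM, h3]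
          rfl
        | succ p ih =>
          intro hp
          have h7 := w1 p (by omega)
          have h8 := (h4 p (by omega)).2.1
          have h7' : ((e (T + 1 + p)).2.1).getD a = wd k b p := h7
          rw [show T + 1 + (p + 1) = T + 1 + p + 1 by rfl, hM, ih (by omega), h8, h7']
      have h7 : M (T + 1 + len k) = G (M T) true (len k) := by
        rw [h6 _ le_rfl]
        cases hb' : b
        · exact (hGG (M T)).symm
        · rfl
      have h8 : (e (T + 1 + len k)).1 ∈ (Ap k).P := by
        rw [(h4 (len k) (by omega)).1]; exact some_w k b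
      have h9 : (e (T + 1 + len k)).2.1 = F (G (M T) true (len k)) := by
        rw [hcons _ h8]
        refine hF _ _ _ (play_path he _).1 ?_ h7
        rw [(play_path he _).2]
        exact h8
      show good b (((e (T + 1 + len k)).2.1).getD a) = 0
      have w2' : ((e (T + 1 + len k)).2.1).getD a = x ∨ ((e (T + 1 + len k)).2.1).getD a = y := w2
      have h10 := (h4 (len k) (by omega)).2.1
      rcases w2' with hx | hy
      · rw [hx]
        rw [hx] at h10
        have : b = true := by
          rw [hbdef]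
          simp only [bad]
          rw [if_neg]
          rw [← h9, h10]
          simp
        rw [this]
        simp [good, bit]
      · rw [hy]
        rw [hy] at h10
        have : b = false := by
          rw [hbdef]
          simp only [bad]
          rw [if_pos]
          rw [← h9, h10]
        rw [this]
        simp [good, bit]
  have hT : ∀ n, ∃ T, n ≤ T ∧ (e T).1 = (none : Option (Nd (len k))) := by
    intro n
    induction n with
    | zero => exact ⟨0, le_rfl, he.1⟩
    | succ n ih =>
      obtain ⟨T, h1, h2⟩ := ih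
      exact ⟨_, by omega, (hround T h2).2⟩
  obtain ⟨N, hN⟩ := hopt _ (exists_win_pi hk) e he hcons
  obtain ⟨T, h1, h2⟩ := hT N
  exact hN T h1 (hround T h2).1

theorem pi_main : Nat.card (Option Col) = 6 ∧ PrefixIndependent Wp ∧ GenMem Wp ≤ 4 ∧
    ChrMem Wp = ⊤ :=
  ⟨opt_card, Wp_pi, by exact_mod_cast genMem_le genOk_Wp, chrMem_top not_chrOk_pi⟩

end Pool.Agent.X200.Cm
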