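import Pool.Agent.X200.Cm.Defs

/-!
# Ranked automata and the pretend strategy
-/

set_option autoImplicit false

namespace Pool.Agent.X200.Cm

/-- A deterministic automaton with a sink `bot`, a monotone preorder of the states and finitely
many labels such that the states with a common label form a well ordered chain. -/
structure Ranked (C : Type) (K : ℕ) where
  Q : Type
  q0 : Q
  bot : Q
  step : Q → C → Q
  le : Q → Q → Prop
  lab : Q → Fin K
  num : Q → ℕ
  hlab : ∀ q q', lab q = lab q' → num q ≤ num q' → le q q'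
  htrans : ∀ a b c, le a b → le b c → le a c
  hmono : ∀ q q' c, le q q' → le (step q c) (step q' c)
  hbot : ∀ q, le q bot → q = bot

variable {C : Type} {K : ℕ}

theorem Ranked.refl (B : Ranked C K) (q : B.Q) : B.le q q := B.hlab q q rfl le_rfl

/-- The run of the automaton. -/
def Ranked.run (B : Ranked C K) (w : ℕ → C) : ℕ → B.Q
  | 0 => B.q0
  | n + 1 => B.step (B.run w n) (w n)

variable (B : Ranked C K) (A : Arena C) (Z : Set A.V)

/-- One step of the safety game in which `Z` is a set of exits. -/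
def SafStep (R : A.V → B.Q → Prop) (v : A.V) (q : B.Q) : Prop :=
  q ≠ B.bot ∧
    (v ∈ A.P → ∃ e ∈ A.E, e.1 = v ∧ (e.2.2 ∈ Z ∨ R e.2.2 (B.step q e.2.1))) ∧
    (v ∉ A.P → ∀ e ∈ A.E, e.1 = v → (e.2.2 ∈ Z ∨ R e.2.2 (B.step q e.2.1)))

/-- Protagonist wins the safety game from `(v, q)`. -/
def Saf (v : A.V) (q : B.Q) : Prop :=
  ∃ R : A.V → B.Q → Prop, R v q ∧ ∀ v q, R v q → SafStep B A Z R v q

variable {B A Z}

theorem saf_step {v : A.V} {q : B.Q} (h : Saf B A Z v q) : SafStep B A Z (Saf B A Z) v q := by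
  obtain ⟨R, h1, h2⟩ := h
  obtain ⟨h3, h4, h5⟩ := h2 v q h1
  refine ⟨h3, fun hv => ?_, fun hv e he h6 => ?_⟩
  · obtain ⟨e, he, h6, h7⟩ := h4 hv
    exact ⟨e, he, h6, h7.imp id fun h => ⟨R, h, h2⟩⟩
  · exact (h5 hv e he h6).imp id fun h => ⟨R, h, h2⟩

variable (B A Z)

/-- The pretend strategy. -/
theorem exists_pretend : ∃ (pick : A.V → Fin K → B.Q) (f : A.V → Fin K → A.Ed),
    (∀ v m, f v m ∈ A.E ∧ (f v m).1 = v) ∧
    (∀ v m, (∃ q, Saf B A Z v q) → Saf B A Z v (pick v m)) ∧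
    (∀ v q, Saf B A Z v q → B.le (pick v (B.lab q)) q) ∧
    (∀ v m, v ∈ A.P → Saf B A Z v (pick v m) →
      ((f v m).2.2 ∈ Z ∨ Saf B A Z (f v m).2.2 (B.step (pick v m) (f v m).2.1))) := by
  classical
  have h1 : ∀ v m, ∃ p : B.Q, ((∃ q, Saf B A Z v q) → Saf B A Z v p) ∧
      ∀ q, Saf B A Z v q → B.lab q = m → B.le p q := by
    intro v m
    by_cases hq : ∃ q, Saf B A Z v q ∧ B.lab q = m
    · let S : Set ℕ := {n | ∃ q, Saf B A Z v q ∧ B.lab q = m ∧ B.num q = n}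
      have hS : ∃ n, n ∈ S := by
        obtain ⟨q, h1, h2⟩ := hq
        exact ⟨_, q, h1, h2, rfl⟩
      obtain ⟨p, hp1, hp2, hp3⟩ := Nat.find_spec hS
      refine ⟨p, fun _ => hp1, fun q hq1 hq2 => B.hlab p q (hp2.trans hq2.symm) ?_⟩
      rw [hp3]
      exact Nat.find_min' hS ⟨q, hq1, hq2, rfl⟩
    · by_cases hq' : ∃ q, Saf B A Z v q
      · obtain ⟨p, hp⟩ := hq'
        exact ⟨p, fun _ => hp, fun q h2 h3 => absurd ⟨q, h2, h3⟩ hq⟩
      · exact ⟨B.q0, fun h => absurd h hq', fun q h2 _ => absurd ⟨q, h2⟩ hq'⟩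
  choose pick hp1 hp2 using h1
  have h2 : ∀ v m, ∃ e : A.Ed, (e ∈ A.E ∧ e.1 = v) ∧ (v ∈ A.P → Saf B A Z v (pick v m) →
      (e.2.2 ∈ Z ∨ Saf B A Z e.2.2 (B.step (pick v m) e.2.1))) := by
    intro v m
    by_cases hv : v ∈ A.P ∧ Saf B A Z v (pick v m)
    · obtain ⟨-, h4, -⟩ := saf_step hv.2
      obtain ⟨e, he, h5, h6⟩ := h4 hv.1
      exact ⟨e, ⟨he, h5⟩, fun _ _ => h6⟩
    · obtain ⟨e, he, h5⟩ := A.out v
      exact ⟨e, ⟨he, h5⟩, fun h7 h8 => absurd ⟨h7, h8⟩ hv⟩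
  choose f hf1 hf2 using h2
  exact ⟨pick, f, hf1, hp1, fun v q hq => hp2 v _ q hq rfl, hf2⟩

/-- The pretend states along a play which avoids the exits. -/
theorem pretend_run {pick : A.V → Fin K → B.Q} {f : A.V → Fin K → A.Ed}
    (h2 : ∀ v m, (∃ q, Saf B A Z v q) → Saf B A Z v (pick v m))
    (h3 : ∀ v q, Saf B A Z v q → B.le (pick v (B.lab q)) q)
    (h4 : ∀ v m, v ∈ A.P → Saf B A Z v (pick v m) →
      ((f v m).2.2 ∈ Z ∨ Saf B A Z (f v m).2.2 (B.step (pick v m) (f v m).2.1)))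
    {e : ℕ → A.Ed} {m : ℕ → Fin K} (he : ∀ n, e n ∈ A.E ∧ (e (n + 1)).1 = (e n).2.2)
    (hm : ∀ n, m (n + 1) = B.lab (B.step (pick (e n).1 (m n)) (e n).2.1))
    (hf : ∀ n, (e n).1 ∈ A.P → e n = f (e n).1 (m n))
    (hZ : ∀ n, (e n).1 ∉ Z) (h0 : Saf B A Z (e 0).1 (pick (e 0).1 (m 0))) :
    ∀ n, Saf B A Z (e n).1 (pick (e n).1 (m n)) ∧
      B.le (pick (e (n + 1)).1 (m (n + 1))) (B.step (pick (e n).1 (m n)) (e n).2.1) := by
  have key : ∀ n, Saf B A Z (e n).1 (pick (e n).1 (m n)) →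
      Saf B A Z (e (n + 1)).1 (B.step (pick (e n).1 (m n)) (e n).2.1) := by
    intro n hn
    rw [(he n).2]
    by_cases hP : (e n).1 ∈ A.P
    · have h5 := hf n hP
      have h6 := h4 _ _ hP hn
      rw [← h5] at h6
      rcases h6 with h6 | h6
      · exact absurd h6 (by rw [← (he n).2]; exact hZ _)
      · exact h6
    · rcases (saf_step hn).2.2 hP (e n) (he n).1 rfl with h6 | h6
      · exact absurd h6 (by rw [← (he n).2]; exact hZ _)
      · exact h6
  have key2 : ∀ n, Saf B A Z (e n).1 (pick (e n).1 (m n)) := by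
    intro n
    induction n with
    | zero => exact h0
    | succ n ih => exact h2 _ _ ⟨_, key n ih⟩
  intro n
  refine ⟨key2 n, ?_⟩
  rw [hm n]
  exact h3 _ _ (key n (key2 n))

/-- A winning strategy for the safety condition shows that the initial state is safe. -/
theorem saf_of_wins {τ : A.V → List A.Ed → A.Ed} (hτ : A.IsStrategy τ) {u : A.V}
    (hw : A.WinsFrom {w | ∀ n, B.run w n ≠ B.bot} τ u) : Saf B A Z u B.q0 := by
  refine ⟨fun v q => ∃ l : List A.Ed, A.IsPath u l ∧ FC A τ u l ∧ A.last u l = v ∧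
    q = l.foldl (fun q e => B.step q e.2.1) B.q0, ⟨[], trivial, fc_nil _ _, rfl, rfl⟩, ?_⟩
  rintro v q ⟨l, h1, h2, rfl, rfl⟩
  refine ⟨?_, fun hP => ?_, fun hP e he h3 => ?_⟩
  · obtain ⟨e, he, hc, hl⟩ := exists_play_through hτ h1 h2
    have h4 := hw e he hc l.length
    have h5 : ∀ n, B.run (fun n => (e n).2.1) n =
        ((List.range n).map e).foldl (fun q e => B.step q e.2.1) B.q0 := by
      intro n
      induction n with
      | zero => rfl
      | succ n ih =>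
        rw [hist_succ, List.foldl_append, ← ih]
        rfl
    rw [h5, hl] at h4
    exact h4
  · have h3 := hτ u l h1 hP
    refine ⟨τ u l, h3.1, h3.2, Or.inr ⟨l ++ [τ u l], ?_, ?_, ?_, ?_⟩⟩
    · rw [isPath_append]
      exact ⟨h1, h3⟩
    · exact fc_append h2 fun _ => rfl
    · exact last_append _ _ _ _
    · rw [List.foldl_append]; rfl
  · refine Or.inr ⟨l ++ [e], ?_, ?_, ?_, ?_⟩
    · rw [isPath_append]
      exact ⟨h1, he, h3⟩
    · exact fc_append h2 fun h => absurd h hP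
    · exact last_append _ _ _ _
    · rw [List.foldl_append]; rfl

/-- Safety conditions of ranked automata with `K` labels have general memory at most `K`. -/
theorem genOk_safe (B : Ranked C K) : GenOk {w | ∀ n, B.run w n ≠ B.bot} K := by
  refine ⟨Fin.pos (B.lab B.q0), fun A => ?_⟩
  obtain ⟨pick, f, h1, h2, h3, h4⟩ := exists_pretend B A ∅
  refine ⟨B.lab B.q0, fun m e => B.lab (B.step (pick e.1 m) e.2.1), ?_⟩
  refine mk_strategy _ _ _ f h1 ?_
  rintro u ⟨τ, hτ, hw⟩ e m he hm0 hm hf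
  have hs : Saf B A ∅ u B.q0 := saf_of_wins B A ∅ hτ hw
  have h5 := pretend_run B A ∅ h2 h3 h4 he.2 hm hf (fun n => Set.notMem_empty _)
    (h2 _ _ ⟨B.q0, by rw [he.1]; exact hs⟩)
  have h6 : ∀ n, B.le (pick (e n).1 (m n)) (B.run (fun n => (e n).2.1) n) := by
    intro n
    induction n with
    | zero =>
      rw [hm0, he.1]
      exact h3 _ _ hs
    | succ n ih => exact B.htrans _ _ _ (h5 n).2 (B.hmono _ _ _ ih)
  intro n hn
  have h7 := h6 n
  rw [hn] at h7
  exact (saf_step (h5 n).1).1 (B.hbot _ h7)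

end Pool.Agent.X200.Cm
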