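import Pool.Agent.X200.Cm.Auto

/-!
# The concrete automaton
-/

set_option autoImplicit false

namespace Pool.Agent.X200.Cm

/-- The five colours. -/
inductive Col
  | a | s | x | y | g
  deriving DecidableEq

open Col

theorem col_card : Nat.card Col = 5 := by
  have e : Col ≃ Fin 5 :=
    { toFun := fun c => match c with | a => 0 | s => 1 | x => 2 | y => 3 | g => 4
      invFun := fun i => ![a, s, x, y, g] i
      left_inv := by intro c; cases c <;> rfl
      right_inv := by intro i; fin_cases i <;> rfl }
  rw [Nat.card_congr e]
  simp

instance : Finite Col := Nat.finite_of_card_ne_zero (by rw [col_card]; norm_num)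

/-- The states. -/
inductive St
  | ab (b : Bool) (n : ℕ)
  | dd (k : ℕ)
  | top
  | bot

open St

open Classical in
/-- Squares. -/
noncomputable def sq (n : ℕ) : Bool := decide (∃ m, n = m * m)

/-- One or zero. -/
def bit (b : Bool) : ℕ := if b then 1 else 0

/-- The transition function. -/
noncomputable def stp : St → Col → St
  | ab b n, a => ab b (n + 1)
  | ab b n, s => ab (xor b (sq n)) (n + 1)
  | ab b n, x => dd (2 * n + bit (!b))
  | ab b n, y => dd (2 * n + bit b)
  | ab _ _, g => top
  | dd _, g => top
  | dd 0, _ => bot
  | dd (k + 1), _ => dd k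
  | top, _ => top
  | bot, _ => bot

/-- The order of the states. -/
def sle : St → St → Prop
  | bot, _ => True
  | _, top => True
  | ab b n, ab b' n' => n < n' ∨ (n = n' ∧ b = b')
  | dd k, dd k' => k ≤ k'
  | _, _ => False

theorem sle_trans (p q r : St) (h1 : sle p q) (h2 : sle q r) : sle p r := by
  cases p <;> cases q <;> cases r <;> simp only [sle] at * <;> first
    | omega
    | (rcases h1 with h1 | ⟨h1, h1'⟩ <;> rcases h2 with h2 | ⟨h2, h2'⟩ <;>
        first
          | (left; omega)
          | (right; exact ⟨h1.trans h2, h1'.trans h2'⟩))

theorem bit_le (b : Bool) : bit b ≤ 1 := by cases b <;> simp [bit]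

theorem stp_mono (p q : St) (c : Col) (h : sle p q) : sle (stp p c) (stp q c) := by
  cases p with
  | bot => cases c <;> simp [stp, sle]
  | top =>
    cases q with
    | top => cases c <;> simp [stp, sle]
    | _ => simp [sle] at h
  | ab b n =>
    cases q with
    | top => cases c <;> simp [stp, sle]
    | ab b' n' =>
      simp only [sle] at h
      have h1 := bit_le b
      have h2 := bit_le (!b)
      rcases h with h | ⟨rfl, rfl⟩
      · cases c <;> simp only [stp, sle] <;> omega
      · cases c <;> simp [stp, sle]
    | _ => simp [sle] at h
  | dd k =>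
    cases q with
    | top => cases c <;> cases k <;> simp [stp, sle]
    | dd k' =>
      simp only [sle] at h
      cases c <;> cases k <;> cases k' <;> simp only [stp, sle] <;> omega
    | _ => simp [sle] at h

/-- The labels. -/
def slab : St → Fin 4
  | ab b _ => if b then 1 else 0
  | dd _ => 2
  | top => 3
  | bot => 2

/-- The numbers. -/
def snum : St → ℕ
  | ab _ n => n
  | dd k => k + 1
  | top => 0
  | bot => 0

theorem slab_le (q q' : St) (h : slab q = slab q') (h' : snum q ≤ snum q') : sle q q' := by
  cases q with
  | bot => simp [sle]
  | top =>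
    cases q' with
    | top => simp [sle]
    | ab b n => cases b <;> simp [slab] at h
    | dd k => simp [slab] at h
    | bot => simp [slab] at h
  | ab b n =>
    cases q' with
    | top => simp [sle]
    | ab b' n' =>
      simp only [snum] at h'
      simp only [sle]
      rcases Nat.lt_or_ge n n' with h1 | h1
      · exact Or.inl h1
      · refine Or.inr ⟨by omega, ?_⟩
        cases b <;> cases b' <;> simp [slab] at h ⊢
    | dd k => cases b <;> simp [slab] at h
    | bot => cases b <;> simp [slab] at h
  | dd k =>
    cases q' with
    | top => simp [sle]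
    | ab b n => cases b <;> simp [slab] at h
    | dd k' => simp only [snum] at h'; simp only [sle]; omega
    | bot => simp [snum] at h'

theorem sle_bot (q : St) (h : sle q bot) : q = bot := by
  cases q <;> simp [sle] at h ⊢

/-- The automaton as a ranked automaton. -/
noncomputable def Au : Ranked Col 4 where
  Q := St
  q0 := ab false 0
  bot := bot
  step := stp
  le := sle
  lab := slab
  num := snum
  hlab := slab_le
  htrans := sle_trans
  hmono := stp_mono
  hbot := sle_bot

/-- The safety condition. -/
def Ws : Set (ℕ → Col) := {w | ∀ n, Au.run w n ≠ Au.bot}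

theorem genOk_Ws : GenOk Ws 4 := genOk_safe Au

end Pool.Agent.X200.Cm
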