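import Mathlib

/-!
# Games on finite arenas, general and chromatic memory
-/

set_option autoImplicit false

namespace Pool.Agent.X200.Cm

/-- An arena over the colours `C`: a finite non-empty set `V` of nodes, the set `P` of Protagonist's
nodes (the nodes outside `P` are Antagonist's), a finite set `E` of coloured edges
(source, colour, target), every node having an outgoing edge. -/
structure Arena (C : Type) where
  /-- the nodes -/
  V : Type
  finite_V : Finite V
  nonempty_V : Nonempty V
  /-- the nodes of Protagonist -/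
  P : Set V
  /-- the edges -/
  E : Set (V × C × V)
  finite_E : E.Finite
  out : ∀ v, ∃ e ∈ E, e.1 = v

variable {C : Type}

/-- Edges (as triples). -/
abbrev Arena.Ed (A : Arena C) : Type := A.V × C × A.V

/-- The list `l` of edges is a finite path which starts at the node `u` (finite paths are coded by
their start node and the list of their edges; the empty list is the empty path at `u`). -/
def Arena.IsPath (A : Arena C) : A.V → List (A.V × C × A.V) → Prop
  | _, [] => True
  | u, e :: l => e ∈ A.E ∧ e.1 = u ∧ A.IsPath e.2.2 l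

/-- The last node of the path `l` which starts at `u`. -/
def Arena.last (A : Arena C) : A.V → List (A.V × C × A.V) → A.V
  | u, [] => u
  | _, e :: l => A.last e.2.2 l

/-- `σ` is a strategy of Protagonist: to every finite path ending in `P` it assigns an edge of the
arena which starts at the last node of the path. -/
def Arena.IsStrategy (A : Arena C)
    (σ : A.V → List (A.V × C × A.V) → A.V × C × A.V) : Prop :=
  ∀ u l, A.IsPath u l → A.last u l ∈ A.P → σ u l ∈ A.E ∧ (σ u l).1 = A.last u l

/-- `e` is an infinite play from `u`: an infinite path, given by its edges. -/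
def Arena.IsPlay (A : Arena C) (u : A.V) (e : ℕ → A.V × C × A.V) : Prop :=
  (e 0).1 = u ∧ ∀ n, e n ∈ A.E ∧ (e (n + 1)).1 = (e n).2.2

/-- The play `e` from `u` is consistent with `σ`: every edge of the play that starts in `P` is the
one `σ` assigns to the path before it. -/
def Arena.Consistent (A : Arena C) (σ : A.V → List (A.V × C × A.V) → A.V × C × A.V)
    (u : A.V) (e : ℕ → A.V × C × A.V) : Prop :=
  ∀ n, (e n).1 ∈ A.P → e n = σ u ((List.range n).map e)

/-- `σ` wins from `u` for the condition `W`: every infinite play from `u` consistent with `σ` has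
its colour sequence in `W`. -/
def Arena.WinsFrom (A : Arena C) (W : Set (ℕ → C))
    (σ : A.V → List (A.V × C × A.V) → A.V × C × A.V) (u : A.V) : Prop :=
  ∀ e, A.IsPlay u e → A.Consistent σ u e → (fun n => (e n).2.1) ∈ W

/-- `σ` is optimal for `W`: it wins from every node from which some strategy of Protagonist
wins. -/
def Arena.Optimal (A : Arena C) (W : Set (ℕ → C))
    (σ : A.V → List (A.V × C × A.V) → A.V × C × A.V) : Prop :=
  ∀ u, (∃ τ, A.IsStrategy τ ∧ A.WinsFrom W τ u) → A.WinsFrom W σ u

/-- `σ` is built on the memory structure `(M, m₀, δ)`: it makes the same move after two paths which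
end at the same node (of Protagonist) and lead to the same memory state. -/
def Arena.Built (A : Arena C) (σ : A.V → List (A.V × C × A.V) → A.V × C × A.V)
    {M : Type} (m₀ : M) (δ : M → A.V × C × A.V → M) : Prop :=
  ∀ u₁ l₁ u₂ l₂, A.IsPath u₁ l₁ → A.IsPath u₂ l₂ → A.last u₁ l₁ = A.last u₂ l₂ →
    A.last u₁ l₁ ∈ A.P → l₁.foldl δ m₀ = l₂.foldl δ m₀ → σ u₁ l₁ = σ u₂ l₂

/-- The memory structure with update function `δ` is chromatic: on the edges of the arena, `δ m e`
depends only on `m` and on the colour of `e`. -/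
def Arena.Chromatic (A : Arena C) {M : Type} (δ : M → A.V × C × A.V → M) : Prop :=
  ∀ m, ∀ e ∈ A.E, ∀ e' ∈ A.E, e.2.1 = e'.2.1 → δ m e = δ m e'

/-- `k ≥ 1` and in every arena Protagonist has an optimal strategy built on some memory structure
with `k` states. -/
def GenOk (W : Set (ℕ → C)) (k : ℕ) : Prop :=
  1 ≤ k ∧ ∀ A : Arena C, ∃ (m₀ : Fin k) (δ : Fin k → A.V × C × A.V → Fin k)
    (σ : A.V → List (A.V × C × A.V) → A.V × C × A.V),
    A.IsStrategy σ ∧ A.Built σ m₀ δ ∧ A.Optimal W σ

/-- `k ≥ 1` and in every arena Protagonist has an optimal strategy built on some chromatic memory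
structure with `k` states. -/
def ChrOk (W : Set (ℕ → C)) (k : ℕ) : Prop :=
  1 ≤ k ∧ ∀ A : Arena C, ∃ (m₀ : Fin k) (δ : Fin k → A.V × C × A.V → Fin k)
    (σ : A.V → List (A.V × C × A.V) → A.V × C × A.V),
    A.Chromatic δ ∧ A.IsStrategy σ ∧ A.Built σ m₀ δ ∧ A.Optimal W σ

/-- The general memory of `W`: the least `k` with `GenOk W k`, and `⊤` if there is none. -/
noncomputable def GenMem (W : Set (ℕ → C)) : ℕ∞ :=
  sInf ((fun k : ℕ => (k : ℕ∞)) '' {k | GenOk W k})

/-- The chromatic memory of `W`: the least `k` with `ChrOk W k`, and `⊤` if there is none. -/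
noncomputable def ChrMem (W : Set (ℕ → C)) : ℕ∞ :=
  sInf ((fun k : ℕ => (k : ℕ∞)) '' {k | ChrOk W k})

/-- `W` is a safety condition: it consists of the sequences none of whose finite prefixes belongs
to some set `F` of forbidden finite words (equivalently, `W` is closed). -/
def IsSafety (W : Set (ℕ → C)) : Prop :=
  ∃ F : Set (List C), W = {w | ∀ n, (List.range n).map w ∉ F}

/-- `W` is prefix-independent: `x y ∈ W` iff `y ∈ W` for all finite words `x` and infinite
words `y`. -/
def PrefixIndependent (W : Set (ℕ → C)) : Prop :=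
  ∀ (x : List C) (y w : ℕ → C), (∀ i (h : i < x.length), w i = x[i]) →
    (∀ i, w (x.length + i) = y i) → (w ∈ W ↔ y ∈ W)

theorem genMem_le {W : Set (ℕ → C)} {k : ℕ} (h : GenOk W k) : GenMem W ≤ k :=
  sInf_le ⟨k, h, rfl⟩

theorem chrMem_top {W : Set (ℕ → C)} (h : ∀ k, ¬ ChrOk W k) : ChrMem W = ⊤ := by
  unfold ChrMem
  have : {k | ChrOk W k} = ∅ := by
    ext k; simp [h k]
  rw [this, Set.image_empty, sInf_empty]

section basic

variable (A : Arena C)

theorem isPath_append (u : A.V) (l : List A.Ed) (e : A.Ed) :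
    A.IsPath u (l ++ [e]) ↔ A.IsPath u l ∧ e ∈ A.E ∧ e.1 = A.last u l := by
  induction l generalizing u with
  | nil => simp [Arena.IsPath, Arena.last]
  | cons a l ih => simp [Arena.IsPath, Arena.last, ih, and_assoc]

theorem last_append (u : A.V) (l : List A.Ed) (e : A.Ed) :
    A.last u (l ++ [e]) = e.2.2 := by
  induction l generalizing u with
  | nil => simp [Arena.last]
  | cons a l ih => simp [Arena.last, ih]

theorem hist_succ {α : Type} (e : ℕ → α) (n : ℕ) :
    (List.range (n + 1)).map e = (List.range n).map e ++ [e n] := by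
  rw [List.range_succ, List.map_append]; rfl

variable {A}

theorem play_path {u : A.V} {e : ℕ → A.Ed} (h : A.IsPlay u e) (n : ℕ) :
    A.IsPath u ((List.range n).map e) ∧ A.last u ((List.range n).map e) = (e n).1 := by
  induction n with
  | zero => exact ⟨trivial, h.1.symm⟩
  | succ n ih =>
    rw [hist_succ, isPath_append, last_append]
    exact ⟨⟨ih.1, (h.2 n).1, ih.2.symm⟩, (h.2 n).2.symm⟩

/-- Prefixes of paths are paths. -/
theorem isPath_take {u : A.V} {l l' : List A.Ed} (h : A.IsPath u (l ++ l')) : A.IsPath u l := by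
  induction l generalizing u with
  | nil => trivial
  | cons a l ih => exact ⟨h.1, h.2.1, ih h.2.2⟩

/-- A rule produces a play. -/
theorem exists_play (u : A.V) (ρ : List A.Ed → A.Ed)
    (hρ : ∀ h, A.IsPath u h → ρ h ∈ A.E ∧ (ρ h).1 = A.last u h) :
    ∃ e, A.IsPlay u e ∧ ∀ n, e n = ρ ((List.range n).map e) := by
  let H : ℕ → List A.Ed := fun n => Nat.rec [] (fun _ h => h ++ [ρ h]) n
  have H0 : H 0 = [] := rfl
  have H1 : ∀ n, H (n + 1) = H n ++ [ρ (H n)] := fun n => rfl
  let e : ℕ → A.Ed := fun n => ρ (H n)
  have he : ∀ n, (List.range n).map e = H n := by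
    intro n
    induction n with
    | zero => rfl
    | succ n ih => rw [hist_succ, ih, H1]
  have hp : ∀ n, A.IsPath u (H n) := by
    intro n
    induction n with
    | zero => trivial
    | succ n ih =>
      rw [H1, isPath_append]
      exact ⟨ih, hρ _ ih⟩
  refine ⟨e, ⟨(hρ _ (hp 0)).2, fun n => ⟨(hρ _ (hp n)).1, ?_⟩⟩, fun n => by rw [he]⟩
  rw [(hρ _ (hp (n + 1))).2, H1, last_append]

/-- Finite histories consistent with `τ`. -/
def FC (A : Arena C) (τ : A.V → List A.Ed → A.Ed) (u : A.V) (l : List A.Ed) : Prop :=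
  ∀ h x, (h ++ [x]) <+: l → A.last u h ∈ A.P → x = τ u h

theorem fc_nil (τ : A.V → List A.Ed → A.Ed) (u : A.V) : FC A τ u [] := by
  intro h x hx
  simp at hx

theorem fc_append {τ : A.V → List A.Ed → A.Ed} {u : A.V} {l : List A.Ed} {e : A.Ed}
    (h : FC A τ u l) (he : A.last u l ∈ A.P → e = τ u l) : FC A τ u (l ++ [e]) := by
  intro h' x hx hP
  rcases List.prefix_concat_iff.1 hx with h1 | h1
  · obtain ⟨rfl, hxe⟩ := List.append_inj' h1 rfl
    simp only [List.cons.injEq, and_true] at hxe
    subst hxe
    exact he hP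
  · exact h h' x h1 hP

open Classical in
theorem exists_play_through {τ : A.V → List A.Ed → A.Ed} (hτ : A.IsStrategy τ) {u : A.V}
    {l : List A.Ed} (hl : A.IsPath u l) (hc : FC A τ u l) :
    ∃ e, A.IsPlay u e ∧ A.Consistent τ u e ∧ (List.range l.length).map e = l := by
  let ρ : List A.Ed → A.Ed := fun h =>
    if hx : ∃ x, (h ++ [x]) <+: l then hx.choose
    else if A.last u h ∈ A.P then τ u h else (A.out (A.last u h)).choose
  have hρ : ∀ h, A.IsPath u h → ρ h ∈ A.E ∧ (ρ h).1 = A.last u h := by
    intro h hh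
    simp only [ρ]
    split_ifs with h1 h2
    · obtain ⟨t, ht⟩ := h1.choose_spec
      rw [← ht] at hl
      have := isPath_take hl
      rw [isPath_append] at this
      exact this.2
    · exact hτ u h hh h2
    · exact (A.out (A.last u h)).choose_spec
  obtain ⟨e, he, hr⟩ := exists_play u ρ hρ
  have hpre : ∀ n, n ≤ l.length → (List.range n).map e = l.take n := by
    intro n
    induction n with
    | zero => intro _; simp
    | succ n ih =>
      intro hn
      have h1 := ih (by omega)
      have hx : ∃ x, ((List.range n).map e ++ [x]) <+: l := by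
        refine ⟨l[n]'(by omega), ?_⟩
        rw [h1, List.take_concat_get']
        exact List.take_prefix _ _
      rw [hist_succ, hr n]
      simp only [ρ]
      rw [dif_pos hx]
      have h2 := hx.choose_spec
      have h3 : ((List.range n).map e ++ [hx.choose]).length = n + 1 := by simp
      have h4 := List.prefix_iff_eq_take.1 h2
      rw [h3] at h4
      exact h4
  refine ⟨e, he, ?_, ?_⟩
  · intro n hn
    have hlast := (play_path he n).2
    rw [hr n]
    simp only [ρ]
    split_ifs with h1 h2
    · exact hc _ _ h1.choose_spec (by rw [hlast]; exact hn)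
    · rfl
    · exact absurd (by rw [hlast]; exact hn) h2
  · rw [hpre l.length le_rfl, List.take_length]

/-- Positional strategies over a memory structure. -/
theorem mk_strategy {M : Type} (W : Set (ℕ → C)) (m₀ : M) (δ : M → A.Ed → M)
    (f : A.V → M → A.Ed) (hf : ∀ v m, f v m ∈ A.E ∧ (f v m).1 = v)
    (H : ∀ u, (∃ τ, A.IsStrategy τ ∧ A.WinsFrom W τ u) → ∀ (e : ℕ → A.Ed) (m : ℕ → M),
      A.IsPlay u e → m 0 = m₀ → (∀ n, m (n + 1) = δ (m n) (e n)) →
      (∀ n, (e n).1 ∈ A.P → e n = f (e n).1 (m n)) → (fun n => (e n).2.1) ∈ W) :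
    ∃ σ : A.V → List A.Ed → A.Ed, A.IsStrategy σ ∧ A.Built σ m₀ δ ∧ A.Optimal W σ := by
  refine ⟨fun u l => f (A.last u l) (l.foldl δ m₀), fun u l _ _ => hf _ _, ?_, ?_⟩
  · intro u₁ l₁ u₂ l₂ _ _ h1 _ h2
    simp only [h1, h2]
  · intro u hu e he hc
    refine H u hu e (fun n => ((List.range n).map e).foldl δ m₀) he rfl ?_ ?_
    · intro n
      simp only [hist_succ, List.foldl_append, List.foldl_cons, List.foldl_nil]
    · intro n hn
      have h1 := hc n hn
      simpa only [(play_path he n).2] using h1

end basic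

end Pool.Agent.X200.Cm
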