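import Pool.Agent.X200.Cm.Conc

/-!
# The complement of the safety condition has finite general memory
-/

set_option autoImplicit false

namespace Pool.Agent.X200.Cm

open St Col

/-- Protagonist can force the automaton into `bot`. -/
inductive WinB (A : Arena Col) : A.V → St → Prop
  | bot (v : A.V) : WinB A v St.bot
  | prot (v : A.V) (q : St) (e : A.Ed) (hv : v ∈ A.P) (he : e ∈ A.E) (h1 : e.1 = v)
      (h : WinB A e.2.2 (stp q e.2.1)) : WinB A v q
  | ant (v : A.V) (q : St) (hv : v ∉ A.P)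
      (h : ∀ e : A.Ed, e ∈ A.E → e.1 = v → WinB A e.2.2 (stp q e.2.1)) : WinB A v q

variable {A : Arena Col}

theorem stp_bot (c : Col) : stp bot c = bot := by cases c <;> rfl

theorem stp_top (c : Col) : stp top c = top := by cases c <;> rfl

theorem winB_step {v : A.V} {q : St} (h : WinB A v q) :
    (v ∈ A.P → ∃ e ∈ A.E, e.1 = v ∧ WinB A e.2.2 (stp q e.2.1)) ∧
    (v ∉ A.P → ∀ e ∈ A.E, e.1 = v → WinB A e.2.2 (stp q e.2.1)) := by
  cases h with
  | bot =>
    refine ⟨fun _ => ?_, fun _ e _ _ => ?_⟩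
    · obtain ⟨e, he, h1⟩ := A.out v
      exact ⟨e, he, h1, by rw [stp_bot]; exact WinB.bot _⟩
    · rw [stp_bot]; exact WinB.bot _
  | prot _ _ e hv he h1 h => exact ⟨fun _ => ⟨e, he, h1, h⟩, fun h2 => absurd hv h2⟩
  | ant _ _ hv h => exact ⟨fun h2 => absurd h2 hv, fun _ => h⟩

theorem winB_anti {v : A.V} {q : St} (h : WinB A v q) : ∀ q', sle q' q → WinB A v q' := by
  induction h with
  | bot v => intro q' h; rw [sle_bot _ h]; exact WinB.bot _
  | prot v q e hv he h1 h ih =>
    intro q' hq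
    exact WinB.prot v q' e hv he h1 (ih _ (stp_mono _ _ _ hq))
  | ant v q hv h ih =>
    intro q' hq
    exact WinB.ant v q' hv fun e he h1 => ih e he h1 _ (stp_mono _ _ _ hq)

theorem not_winB_top {v : A.V} : ¬ WinB A v top := by
  intro h
  have gen : ∀ v q, WinB A v q → q ≠ top := by
    intro v q h
    induction h with
    | bot v => simp
    | prot v q e hv he h1 h ih => rintro rfl; rw [stp_top] at ih; exact ih rfl
    | ant v q hv h ih =>
      rintro rfl
      obtain ⟨e, he, h1⟩ := A.out v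
      have := ih e he h1
      rw [stp_top] at this
      exact this rfl
  exact gen v _ h rfl

/-- The nodes from which every countdown is won. -/
def UD (A : Arena Col) : Set A.V := {v | ∀ k, WinB A v (dd k)}

/-- A uniform winning edge for all countdowns. -/
theorem exists_uniform {v : A.V} (hv : v ∈ A.P) : ∃ e ∈ A.E, e.1 = v ∧
    ∀ k, WinB A v (dd k) → WinB A e.2.2 (stp (dd k) e.2.1) := by
  by_contra hcon
  push Not at hcon
  have h1 : ∀ e : A.Ed, ∃ k, e ∈ A.E → e.1 = v →
      WinB A v (dd k) ∧ ¬ WinB A e.2.2 (stp (dd k) e.2.1) := by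
    intro e
    by_cases he : e ∈ A.E ∧ e.1 = v
    · obtain ⟨k, hk⟩ := hcon e he.1 he.2
      exact ⟨k, fun _ _ => hk⟩
    · exact ⟨0, fun h2 h3 => absurd ⟨h2, h3⟩ he⟩
  choose n hn using h1
  have hfin : {e : A.Ed | e ∈ A.E ∧ e.1 = v}.Finite := A.finite_E.subset fun e he => he.1
  have hne : {e : A.Ed | e ∈ A.E ∧ e.1 = v}.Nonempty := by
    obtain ⟨e, he, h1⟩ := A.out v
    exact ⟨e, he, h1⟩
  obtain ⟨e, he, hmax⟩ := Set.exists_max_image _ n hfin hne
  obtain ⟨e', he', h1', h2'⟩ := (winB_step (hn e he.1 he.2).1).1 hv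
  refine (hn e' he' h1').2 (winB_anti h2' _ (stp_mono _ _ _ ?_))
  exact hmax e' ⟨he', h1'⟩

/-- The edge `e` is good for the target set `S`. -/
def okE (A : Arena Col) (S : Set A.V) (e : A.Ed) : Prop :=
  ((e.2.1 = x ∨ e.2.1 = y) ∧ e.2.2 ∈ UD A) ∨ ((e.2.1 = a ∨ e.2.1 = s) ∧ e.2.2 ∈ S)

theorem okE_mono {S T : Set A.V} (h : S ⊆ T) {e : A.Ed} (he : okE A S e) : okE A T e :=
  he.imp id fun h1 => ⟨h1.1, h h1.2⟩

/-- The attractor levels. -/
def AttN (A : Arena Col) : ℕ → Set A.V
  | 0 => ∅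
  | n + 1 => {v | (v ∈ A.P ∧ ∃ e ∈ A.E, e.1 = v ∧ okE A (AttN A n) e) ∨
      (v ∉ A.P ∧ ∀ e ∈ A.E, e.1 = v → okE A (AttN A n) e)}

theorem attN_succ (n : ℕ) : AttN A n ⊆ AttN A (n + 1) := by
  induction n with
  | zero => intro v hv; exact absurd hv (Set.notMem_empty v)
  | succ n ih =>
    rintro v (⟨hv, e, he, h1, h2⟩ | ⟨hv, h⟩)
    · exact Or.inl ⟨hv, e, he, h1, okE_mono ih h2⟩
    · exact Or.inr ⟨hv, fun e he h1 => okE_mono ih (h e he h1)⟩

theorem attN_mono : Monotone (AttN A) := monotone_nat_of_le_succ attN_succ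

/-- The attractor. -/
def Att (A : Arena Col) : Set A.V := {v | ∃ n, v ∈ AttN A n}

theorem exists_N0 (A : Arena Col) : ∃ N, ∀ v n, N ≤ n → WinB A v (dd n) → v ∈ UD A := by
  classical
  have := A.finite_V
  have h1 : ∀ v : A.V, ∃ k, v ∉ UD A → ¬ WinB A v (dd k) := by
    intro v
    by_cases hv : v ∈ UD A
    · exact ⟨0, fun h => absurd hv h⟩
    · simp only [UD, Set.mem_ofPred_eq, not_forall] at hv
      obtain ⟨k, hk⟩ := hv
      exact ⟨k, fun _ => hk⟩
  choose f hf using h1
  obtain ⟨N, hN⟩ := (Set.finite_range f).bddAbove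
  refine ⟨N, fun v n hn hw => ?_⟩
  by_contra hv
  refine hf v hv (winB_anti hw _ ?_)
  exact (hN ⟨v, rfl⟩).trans hn

theorem att_of_win {N : ℕ} (hN : ∀ v n, N ≤ n → WinB A v (dd n) → v ∈ UD A) {v : A.V} {q : St}
    (h : WinB A v q) : ∀ b n, q = ab b n → N ≤ n → v ∈ Att A := by
  have key : ∀ (e : A.Ed) (b : Bool) (n : ℕ), N ≤ n → WinB A e.2.2 (stp (ab b n) e.2.1) →
      (∀ b' n', stp (ab b n) e.2.1 = ab b' n' → N ≤ n' → e.2.2 ∈ Att A) →
      ∃ k, okE A (AttN A k) e := by
    intro e b n hn hw ih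
    have hb := bit_le b
    rcases hc : e.2.1 with _ | _ | _ | _ | _
    · rw [hc] at ih
      obtain ⟨k, hk⟩ := ih _ _ rfl (by omega)
      exact ⟨k, Or.inr ⟨Or.inl hc, hk⟩⟩
    · rw [hc] at ih
      obtain ⟨k, hk⟩ := ih _ _ rfl (by omega)
      exact ⟨k, Or.inr ⟨Or.inr hc, hk⟩⟩
    · rw [hc] at hw
      exact ⟨0, Or.inl ⟨Or.inl hc, hN _ (2 * n + bit (!b)) (by omega) hw⟩⟩
    · rw [hc] at hw
      exact ⟨0, Or.inl ⟨Or.inr hc, hN _ (2 * n + bit b) (by omega) hw⟩⟩
    · rw [hc] at hw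
      exact absurd hw not_winB_top
  induction h with
  | bot v => intro b n h; exact absurd h (by simp)
  | prot v q e hv he h1 h ih =>
    rintro b n rfl hn
    obtain ⟨k, hk⟩ := key e b n hn h ih
    exact ⟨k + 1, Or.inl ⟨hv, e, he, h1, hk⟩⟩
  | ant v q hv h ih =>
    rintro b n rfl hn
    have h2 : ∀ e : A.Ed, ∃ k, e ∈ A.E → e.1 = v → okE A (AttN A k) e := by
      intro e
      by_cases he : e ∈ A.E ∧ e.1 = v
      · obtain ⟨k, hk⟩ := key e b n hn (h e he.1 he.2) (ih e he.1 he.2)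
        exact ⟨k, fun _ _ => hk⟩
      · exact ⟨0, fun h2 h3 => absurd ⟨h2, h3⟩ he⟩
    choose k hk using h2
    obtain ⟨K, hK⟩ := (A.finite_E.image k).bddAbove
    exact ⟨K + 1, Or.inr ⟨hv, fun e he h1 =>
      okE_mono (attN_mono (hK ⟨e, he, rfl⟩)) (hk e he h1)⟩⟩

/-- The labels of the pretend states. -/
def l3 : St → Fin 3
  | ab b _ => if b then 1 else 0
  | _ => 2

/-- The bit of a memory state. -/
def bt (m : Fin 3) : Bool := decide (m = 1)

/-- A strategy which wins for the complement gives a winning position. -/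
theorem winB_of_wins {τ : A.V → List A.Ed → A.Ed} (hτ : A.IsStrategy τ) {u : A.V}
    (hw : A.WinsFrom Wsᶜ τ u) : WinB A u (ab false 0) := by
  classical
  by_contra hcon
  let st : List A.Ed → St := fun l => l.foldl (fun q e => stp q e.2.1) (ab false 0)
  have h1 : ∀ v q, ¬ WinB A v q → v ∉ A.P → ∃ e ∈ A.E, e.1 = v ∧ ¬ WinB A e.2.2 (stp q e.2.1) := by
    intro v q h hv
    by_contra h2
    push Not at h2
    exact h (WinB.ant v q hv h2)
  let ρ : List A.Ed → A.Ed := fun l =>
    if hP : A.last u l ∈ A.P then τ u l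
    else if hb : WinB A (A.last u l) (st l) then (A.out (A.last u l)).choose
    else (h1 _ _ hb hP).choose
  obtain ⟨e, he, hr⟩ := exists_play u ρ (by
    intro h hh
    simp only [ρ]
    split_ifs with hP hb
    · exact hτ u h hh hP
    · exact (A.out (A.last u h)).choose_spec
    · exact ⟨(h1 _ _ hb hP).choose_spec.1, (h1 _ _ hb hP).choose_spec.2.1⟩)
  have hcons : A.Consistent τ u e := by
    intro n hn
    rw [← (play_path he n).2] at hn
    rw [hr n]
    simp only [ρ]
    rw [dif_pos hn]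
  have hrun : ∀ n, Au.run (fun n => (e n).2.1) n = st ((List.range n).map e) := by
    intro n
    induction n with
    | zero => rfl
    | succ n ih =>
      rw [hist_succ]
      simp only [st, List.foldl_append, List.foldl_cons, List.foldl_nil]
      show stp (Au.run _ n) _ = _
      rw [ih]
  have hnot : ∀ n, ¬ WinB A (e n).1 (Au.run (fun n => (e n).2.1) n) := by
    intro n
    induction n with
    | zero => rw [he.1]; exact hcon
    | succ n ih =>
      rw [(he.2 n).2]
      show ¬ WinB A _ (stp (Au.run (fun n => (e n).2.1) n) (e n).2.1)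
      by_cases hP : (e n).1 ∈ A.P
      · intro hwin
        exact ih (WinB.prot _ _ (e n) hP (he.2 n).1 rfl hwin)
      · have h2 := hr n
        simp only [ρ] at h2
        rw [dif_neg (by rw [(play_path he n).2]; exact hP), dif_neg (by
          rw [(play_path he n).2, ← hrun]; exact ih)] at h2
        generalize_proofs h3 at h2
        have h4 := h3.choose_spec
        rw [← h2, ← hrun] at h4
        exact h4.2.2
  have h2 := hw e he hcons
  apply h2
  intro n hn
  have h3 := hnot n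
  rw [hn] at h3
  exact h3 (WinB.bot _)

end Pool.Agent.X200.Cm
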