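import Pool.Agent.X200.Cm.Conc

/-!
# The prefix-independent condition
-/

set_option autoImplicit false

namespace Pool.Agent.X200.Cm

open St Col

/-- The automaton with resets. -/
noncomputable def stpR (q : St) (c : Option Col) : St :=
  match c with
  | none => ab false 0
  | some c => stp q c

theorem stpR_mono (p q : St) (c : Option Col) (h : sle p q) : sle (stpR p c) (stpR q c) := by
  cases c with
  | none => exact slab_le _ _ rfl le_rfl
  | some c => exact stp_mono _ _ _ h

/-- The automaton with resets as a ranked automaton. -/
noncomputable def AuR : Ranked (Option Col) 4 where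
  Q := St
  q0 := ab false 0
  bot := bot
  step := stpR
  le := sle
  lab := slab
  num := snum
  hlab := slab_le
  htrans := sle_trans
  hmono := stpR_mono
  hbot := sle_bot

/-- The reset at time `t` is followed by a forbidden word. -/
def Bad (w : ℕ → Option Col) (t : ℕ) : Prop :=
  w t = none ∧ ∃ m, (∀ i < m, w (t + 1 + i) ≠ none) ∧
    Au.run (fun i => (w (t + 1 + i)).getD a) m = Au.bot

/-- The prefix-independent condition: only finitely many resets are followed by a forbidden
word. -/
def Wp : Set (ℕ → Option Col) := {w | ∃ N, ∀ t, N ≤ t → ¬ Bad w t}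

theorem bad_shift (w : ℕ → Option Col) (n t : ℕ) :
    Bad (fun i => w (n + i)) t ↔ Bad w (n + t) := by
  unfold Bad
  simp only [show ∀ i, n + (t + 1 + i) = n + t + 1 + i from fun i => by omega]

theorem Wp_shift (w : ℕ → Option Col) (n : ℕ) : (fun i => w (n + i)) ∈ Wp ↔ w ∈ Wp := by
  constructor
  · rintro ⟨N, hN⟩
    refine ⟨n + N, fun t ht hb => hN (t - n) (by omega) ?_⟩
    rw [bad_shift, show n + (t - n) = t by omega]
    exact hb
  · rintro ⟨N, hN⟩
    refine ⟨N, fun t ht hb => hN (n + t) (by omega) ?_⟩
    rw [← bad_shift]
    exact hb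

theorem Wp_pi : PrefixIndependent Wp := by
  intro l y w _ h
  rw [← Wp_shift w l.length]
  rw [show (fun i => w (l.length + i)) = y from funext h]

/-- A state of the automaton with resets which is not `top` comes from a reset. -/
theorem trace_reset {w : ℕ → Option Col} {R : ℕ → St} (h0 : R 0 = top)
    (h1 : ∀ i, R (i + 1) = stpR (R i) (w i)) (i : ℕ) :
    R i = top ∨ ∃ t, t < i ∧ w t = none ∧ (∀ j < i - (t + 1), w (t + 1 + j) ≠ none) ∧
      Au.run (fun j => (w (t + 1 + j)).getD a) (i - (t + 1)) = R i := by
  induction i with
  | zero => exact Or.inl h0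
  | succ i ih =>
    rw [h1]
    rcases hc : w i with _ | c
    · refine Or.inr ⟨i, by omega, hc, ?_, ?_⟩
      · intro j hj; omega
      · rw [show i + 1 - (i + 1) = 0 by omega]; rfl
    · rcases ih with ih | ⟨t, ht, hwt, hj, hr⟩
      · left
        rw [ih]
        show stp top c = top
        cases c <;> rfl
      · right
        refine ⟨t, by omega, hwt, ?_, ?_⟩
        · intro j hj'
          rcases Nat.lt_or_ge j (i - (t + 1)) with h2 | h2
          · exact hj j h2
          · rw [show t + 1 + j = i by omega, hc]; simp
        · rw [show i + 1 - (t + 1) = (i - (t + 1)) + 1 by omega]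
          show stp (Au.run (fun j => (w (t + 1 + j)).getD a) (i - (t + 1)))
            ((w (t + 1 + (i - (t + 1)))).getD a) = stp (R i) c
          rw [hr, show t + 1 + (i - (t + 1)) = i by omega, hc]
          rfl

theorem opt_card : Nat.card (Option Col) = 6 := by
  have h : Finite Col := inferInstance
  rw [Finite.card_option, col_card]

end Pool.Agent.X200.Cm
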