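import Pool.Agent.X200.Cm.PiDef

/-!
# The prefix-independent condition has finite general memory
-/

set_option autoImplicit false

namespace Pool.Agent.X200.Cm

open St Col

variable {A : Arena (Option Col)}

/-- `Z` is solved by the strategy `f` with memory update `δ`, from every memory state. -/
def Solved (A : Arena (Option Col)) (Z : Set A.V) (f : A.V → Fin 4 → A.Ed)
    (δ : Fin 4 → A.Ed → Fin 4) : Prop :=
  (∀ v m, f v m ∈ A.E ∧ (f v m).1 = v) ∧
  (∀ v ∈ Z, v ∈ A.P → ∀ m, (f v m).2.2 ∈ Z) ∧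
  (∀ v ∈ Z, v ∉ A.P → ∀ e ∈ A.E, e.1 = v → e.2.2 ∈ Z) ∧
  (∀ (e : ℕ → A.Ed) (m : ℕ → Fin 4), (∀ n, e n ∈ A.E ∧ (e (n + 1)).1 = (e n).2.2) →
    (∀ n, (e n).1 ∈ Z) → (∀ n, m (n + 1) = δ (m n) (e n)) →
    (∀ n, (e n).1 ∈ A.P → e n = f (e n).1 (m n)) → (fun n => (e n).2.1) ∈ Wp)

open Classical in
/-- The solved set can be extended by the safe nodes. -/
theorem solved_extend {Z : Set A.V} {f : A.V → Fin 4 → A.Ed} {δ : Fin 4 → A.Ed → Fin 4}
    (h : Solved A Z f δ) :
    ∃ f' δ', Solved A (Z ∪ {v | ∃ q, Saf AuR A Z v q}) f' δ' := by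
  obtain ⟨h1, h2, h3, h4⟩ := h
  obtain ⟨pick, g, g1, g2, g3, g4⟩ := exists_pretend AuR A Z
  let f' : A.V → Fin 4 → A.Ed := fun v m => if v ∈ Z then f v m else g v m
  let δ' : Fin 4 → A.Ed → Fin 4 := fun m e =>
    if e.1 ∈ Z then δ m e else AuR.lab (AuR.step (pick e.1 m) e.2.1)
  have fZ : ∀ v m, v ∈ Z → f' v m = f v m := fun v m hv => if_pos hv
  have fn : ∀ v m, v ∉ Z → f' v m = g v m := fun v m hv => if_neg hv
  refine ⟨f', δ', ?_, ?_, ?_, ?_⟩
  · intro v m
    by_cases hv : v ∈ Z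
    · rw [fZ v m hv]; exact h1 v m
    · rw [fn v m hv]; exact g1 v m
  · intro v hv hP m
    by_cases hvZ : v ∈ Z
    · rw [fZ v m hvZ]; exact Or.inl (h2 v hvZ hP m)
    · rw [fn v m hvZ]
      have hs : ∃ q, Saf AuR A Z v q := hv.resolve_left hvZ
      exact (g4 v m hP (g2 v m hs)).imp id fun h => ⟨_, h⟩
  · intro v hv hP e he hev
    by_cases hvZ : v ∈ Z
    · exact Or.inl (h3 v hvZ hP e he hev)
    · obtain ⟨q, hq⟩ : ∃ q, Saf AuR A Z v q := hv.resolve_left hvZ
      exact ((saf_step hq).2.2 hP e he hev).imp id fun h => ⟨_, h⟩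
  · intro e m he hZ' hm hf
    by_cases hZ : ∃ n, (e n).1 ∈ Z
    · obtain ⟨n, hn⟩ := hZ
      have hall : ∀ i, (e (n + i)).1 ∈ Z := by
        intro i
        induction i with
        | zero => exact hn
        | succ i ih =>
          rw [show n + (i + 1) = n + i + 1 by omega, (he _).2]
          by_cases hP : (e (n + i)).1 ∈ A.P
          · have h5 := (hf _ hP).trans (fZ _ _ ih)
            have h6 := h2 _ ih hP (m (n + i))
            rw [← h5] at h6
            exact h6
          · exact h3 _ ih hP (e (n + i)) (he _).1 rfl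
      have h5 := h4 (fun i => e (n + i)) (fun i => m (n + i)) (fun i => he (n + i)) hall
        (fun i => (hm (n + i)).trans (if_pos (hall i)))
        (fun i hP => (hf (n + i) hP).trans (fZ _ _ (hall i)))
      exact (Wp_shift (fun n => (e n).2.1) n).1 h5
    · push Not at hZ
      have hs : ∀ n, ∃ q, Saf AuR A Z (e n).1 q := fun n => (hZ' n).resolve_left (hZ n)
      have h5 := pretend_run AuR A Z g2 g3 g4 he (fun n => (hm n).trans (if_neg (hZ n)))
        (fun n hP => (hf n hP).trans (fn _ _ (hZ n))) hZ (g2 _ _ (hs 0))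
      refine ⟨0, fun t _ => ?_⟩
      rintro ⟨ht, k, hk, hrun⟩
      have h6 : ∀ i ≤ k, sle (pick (e (t + 1 + i)).1 (m (t + 1 + i)))
          (Au.run (fun i => ((e (t + 1 + i)).2.1).getD a) i) := by
        intro i
        induction i with
        | zero =>
          intro _
          have h7 := (h5 t).2
          rw [show (e t).2.1 = none from ht] at h7
          exact h7
        | succ i ih =>
          intro hi
          have h7 := (h5 (t + 1 + i)).2
          refine sle_trans _ _ _ h7 ?_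
          have h8 := hk i (by omega)
          obtain ⟨c, hc⟩ : ∃ c, (e (t + 1 + i)).2.1 = some c := Option.ne_none_iff_exists'.1 h8
          show sle (stpR _ (e (t + 1 + i)).2.1) (stp _ ((e (t + 1 + i)).2.1.getD a))
          rw [hc]
          exact stp_mono _ _ _ (ih (by omega))
      have h7 := h6 k le_rfl
      rw [hrun] at h7
      exact (saf_step (h5 (t + 1 + k)).1).1 (sle_bot _ h7)

/-- The bounded safety game. -/
def SafN (A : Arena (Option Col)) (Z : Set A.V) : ℕ → A.V → St → Prop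
  | 0 => fun _ _ => True
  | n + 1 => SafStep AuR A Z (SafN A Z n)

theorem safStep_mono {Z : Set A.V} {R S : A.V → St → Prop} (h : ∀ v q, R v q → S v q) {v : A.V}
    {q : St} (h1 : SafStep AuR A Z R v q) : SafStep AuR A Z S v q := by
  obtain ⟨h2, h3, h4⟩ := h1
  refine ⟨h2, fun hP => ?_, fun hP e he h5 => (h4 hP e he h5).imp id (h _ _)⟩
  obtain ⟨e, he, h5, h6⟩ := h3 hP
  exact ⟨e, he, h5, h6.imp id (h _ _)⟩

theorem safN_succ (Z : Set A.V) (n : ℕ) : ∀ v q, SafN A Z (n + 1) v q → SafN A Z n v q := by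
  induction n with
  | zero => intro _ _ _; trivial
  | succ n ih => exact fun v q h => safStep_mono ih h

theorem safN_anti (Z : Set A.V) {n m : ℕ} (h : n ≤ m) (v : A.V) (q : St) (h1 : SafN A Z m v q) :
    SafN A Z n v q := by
  induction h with
  | refl => exact h1
  | step _ ih => exact ih (safN_succ Z _ v q h1)

theorem saf_of_safN {Z : Set A.V} {v : A.V} {q : St} (h : ∀ n, SafN A Z n v q) :
    Saf AuR A Z v q := by
  classical
  refine ⟨fun v q => ∀ n, SafN A Z n v q, h, ?_⟩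
  intro v q h
  refine ⟨(h 1).1, fun hP => ?_, fun hP e he h1 => ?_⟩
  · by_contra hcon
    push Not at hcon
    have h1 : ∀ e : A.Ed, ∃ n, e ∈ A.E → e.1 = v → ¬ SafN A Z n e.2.2 (AuR.step q e.2.1) := by
      intro e
      by_cases he : e ∈ A.E ∧ e.1 = v
      · obtain ⟨n, hn⟩ := (hcon e he.1 he.2).2
        exact ⟨n, fun _ _ => hn⟩
      · exact ⟨0, fun h2 h3 => absurd ⟨h2, h3⟩ he⟩
    choose n hn using h1
    obtain ⟨N, hN⟩ := (A.finite_E.image n).bddAbove
    obtain ⟨e, he, h2, h3⟩ := (h (N + 1)).2.1 hP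
    rcases h3 with h3 | h3
    · exact (hcon e he h2).1 h3
    · exact hn e he h2 (safN_anti Z (hN ⟨e, he, rfl⟩) _ _ h3)
  · by_cases hZ : e.2.2 ∈ Z
    · exact Or.inl hZ
    · refine Or.inr fun n => ?_
      exact ((h (n + 1)).2.2 hP e he h1).resolve_left hZ

/-- Ranks for Antagonist. -/
theorem exists_rank {Z : Set A.V} (h : ∀ v, v ∉ Z → ∀ q, ¬ Saf AuR A Z v q) :
    ∃ rk : A.V → St → ℕ, ∀ v, v ∉ Z → ∀ q, q ≠ bot →
      (v ∈ A.P → ∀ e ∈ A.E, e.1 = v → e.2.2 ∉ Z ∧ rk e.2.2 (stpR q e.2.1) < rk v q) ∧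
      (v ∉ A.P → ∃ e ∈ A.E, e.1 = v ∧ e.2.2 ∉ Z ∧ rk e.2.2 (stpR q e.2.1) < rk v q) := by
  classical
  have h1 : ∀ v q, ∃ n, v ∉ Z → ¬ SafN A Z n v q ∧ ∀ n', ¬ SafN A Z n' v q → n ≤ n' := by
    intro v q
    by_cases hv : v ∈ Z
    · exact ⟨0, fun h => absurd hv h⟩
    · have h2 : ∃ n, ¬ SafN A Z n v q := by
        by_contra h3
        push Not at h3
        exact h v hv q (saf_of_safN h3)
      exact ⟨Nat.find h2, fun _ => ⟨Nat.find_spec h2, fun n' hn' => Nat.find_min' h2 hn'⟩⟩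
  choose rk hrk using h1
  refine ⟨rk, fun v hv q hq => ?_⟩
  obtain ⟨r, hr⟩ : ∃ r, rk v q = r + 1 := by
    rcases hrv : rk v q with _ | r
    · have := (hrk v q hv).1
      rw [hrv] at this
      exact absurd trivial this
    · exact ⟨r, rfl⟩
  have h2 := (hrk v q hv).1
  rw [hr] at h2
  have key : ∀ e : A.Ed, ¬ (e.2.2 ∈ Z ∨ SafN A Z r e.2.2 (stpR q e.2.1)) →
      e.2.2 ∉ Z ∧ rk e.2.2 (stpR q e.2.1) < rk v q := by
    intro e he
    push Not at he
    refine ⟨he.1, ?_⟩
    have := (hrk e.2.2 (stpR q e.2.1) he.1).2 r he.2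
    omega
  refine ⟨fun hP e he h3 => ?_, fun hP => ?_⟩
  · apply key
    intro h4
    exact h2 ⟨hq, fun _ => ⟨e, he, h3, h4⟩, fun h5 => absurd hP h5⟩
  · by_contra hcon
    push Not at hcon
    refine h2 ⟨hq, fun h5 => absurd h5 hP, fun _ e he h3 => ?_⟩
    by_contra h4
    have h5 := key e h4
    have h6 := hcon e he h3 h5.1
    omega

/-- The restart. -/
def lift (q : St) : St := match q with
  | bot => top
  | q => q

theorem lift_ne (q : St) : lift q ≠ bot := by cases q <;> simp [lift]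

theorem lift_of_ne {q : St} (h : q ≠ bot) : lift q = q := by
  cases q <;> simp [lift] at h ⊢

/-- Outside a maximal solved set Protagonist does not win. -/
theorem no_win {Z : Set A.V} (h : ∀ v, v ∉ Z → ∀ q, ¬ Saf AuR A Z v q) {u : A.V} (hu : u ∉ Z)
    {τ : A.V → List A.Ed → A.Ed} (hτ : A.IsStrategy τ) : ¬ A.WinsFrom Wp τ u := by
  classical
  obtain ⟨rk, hrk⟩ := exists_rank h
  intro hw
  let st : List A.Ed → St := fun l => l.foldl (fun q e => stpR (lift q) e.2.1) bot
  let Pr : List A.Ed → A.Ed → Prop := fun l e =>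
    e ∈ A.E ∧ e.1 = A.last u l ∧ e.2.2 ∉ Z ∧
      rk e.2.2 (stpR (lift (st l)) e.2.1) < rk (A.last u l) (lift (st l))
  let ρ : List A.Ed → A.Ed := fun l =>
    if hP : A.last u l ∈ A.P then τ u l
    else if hb : ∃ e, Pr l e then hb.choose
    else (A.out (A.last u l)).choose
  obtain ⟨e, he, hr⟩ := exists_play u ρ (by
    intro h hh
    simp only [ρ]
    split_ifs with hP hb
    · exact hτ u h hh hP
    · exact ⟨hb.choose_spec.1, hb.choose_spec.2.1⟩
    · exact (A.out (A.last u h)).choose_spec)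
  have hcons : A.Consistent τ u e := by
    intro n hn
    rw [← (play_path he n).2] at hn
    rw [hr n]
    simp only [ρ]
    rw [dif_pos hn]
  let Q : ℕ → St := fun n => st ((List.range n).map e)
  have hQ1 : ∀ n, Q (n + 1) = stpR (lift (Q n)) (e n).2.1 := by
    intro n
    simp only [Q, st, hist_succ, List.foldl_append, List.foldl_cons, List.foldl_nil]
  have step : ∀ n, (e n).1 ∉ Z →
      (e (n + 1)).1 ∉ Z ∧ rk (e (n + 1)).1 (Q (n + 1)) < rk (e n).1 (lift (Q n)) := by
    intro n hn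
    rw [(he.2 n).2, hQ1]
    by_cases hP : (e n).1 ∈ A.P
    · exact (hrk _ hn _ (lift_ne (Q n))).1 hP (e n) (he.2 n).1 rfl
    · have hex : ∃ e', Pr ((List.range n).map e) e' := by
        obtain ⟨e', h1, h2, h3, h4⟩ := (hrk _ hn _ (lift_ne (Q n))).2 hP
        refine ⟨e', h1, ?_, h3, ?_⟩
        · rw [(play_path he n).2]; exact h2
        · rw [(play_path he n).2]; exact h4
      have h2 := hr n
      simp only [ρ] at h2
      rw [dif_neg (by rw [(play_path he n).2]; exact hP), dif_pos hex] at h2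
      have h3 := hex.choose_spec
      rw [← h2] at h3
      obtain ⟨-, -, h4, h5⟩ := h3
      rw [(play_path he n).2] at h5
      exact ⟨h4, h5⟩
  have hZ : ∀ n, (e n).1 ∉ Z := by
    intro n
    induction n with
    | zero => rw [he.1]; exact hu
    | succ n ih => exact (step n ih).1
  have hnext : ∀ r n, rk (e n).1 (lift (Q n)) ≤ r → ∃ t, n < t ∧ Q t = bot := by
    intro r
    induction r with
    | zero =>
      intro n hn
      have := (step n (hZ n)).2
      omega
    | succ r ih =>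
      intro n hn
      by_cases hb : Q (n + 1) = bot
      · exact ⟨n + 1, by omega, hb⟩
      · have h1 := (step n (hZ n)).2
        obtain ⟨t, ht, hQt⟩ := ih (n + 1) (by rw [lift_of_ne hb]; omega)
        exact ⟨t, by omega, hQt⟩
  obtain ⟨N, hN⟩ := hw e he hcons
  obtain ⟨t1, ht1, hQt1⟩ := hnext _ N le_rfl
  have hex : ∃ d, Q (t1 + 1 + d) = bot := by
    obtain ⟨t2, ht2, hQt2⟩ := hnext _ t1 le_rfl
    exact ⟨t2 - (t1 + 1), by rw [show t1 + 1 + (t2 - (t1 + 1)) = t2 by omega]; exact hQt2⟩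
  -- the run between two consecutive visits of `bot`
  let R : ℕ → St := fun i => Nat.rec top (fun i q => stpR q (e (t1 + i)).2.1) i
  have hR0 : R 0 = top := rfl
  have hR1 : ∀ i, R (i + 1) = stpR (R i) (e (t1 + i)).2.1 := fun i => rfl
  have hRQ : ∀ i, i ≤ Nat.find hex → R (i + 1) = Q (t1 + 1 + i) := by
    intro i
    induction i with
    | zero =>
      intro _
      rw [hR1, hR0, show t1 + 1 + 0 = t1 + 1 by rfl, hQ1, hQt1]
      rfl
    | succ i ih =>
      intro hi
      have e1 : R (i + 1 + 1) = stpR (R (i + 1)) (e (t1 + (i + 1))).2.1 := rfl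
      have e2 : Q (t1 + 1 + (i + 1)) = stpR (lift (Q (t1 + 1 + i))) (e (t1 + 1 + i)).2.1 :=
        hQ1 (t1 + 1 + i)
      rw [e1, ih (by omega), e2, lift_of_ne (Nat.find_min hex (by omega)),
        show t1 + (i + 1) = t1 + 1 + i by omega]
  have hend := hRQ _ le_rfl
  rw [Nat.find_spec hex] at hend
  rcases trace_reset (w := fun i => (e (t1 + i)).2.1) hR0 hR1 (Nat.find hex + 1) with h1 | h1
  · rw [hend] at h1; exact absurd h1 (by simp)
  · obtain ⟨t, -, h2, h3, h4⟩ := h1
    refine hN (t1 + t) (by omega) ?_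
    rw [← bad_shift]
    exact ⟨h2, _, h3, h4.trans hend⟩

theorem genOk_Wp : GenOk Wp 4 := by
  classical
  refine ⟨by norm_num, fun A => ?_⟩
  have := A.finite_V
  have hne : {Z : Set A.V | ∃ f δ, Solved A Z f δ}.Nonempty := by
    refine ⟨∅, fun v _ => (A.out v).choose, fun m _ => m, fun v _ => (A.out v).choose_spec,
      fun v hv => absurd hv (Set.notMem_empty v), fun v hv => absurd hv (Set.notMem_empty v), ?_⟩
    intro e m _ h
    exact absurd (h 0) (Set.notMem_empty _)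
  obtain ⟨Z, ⟨f, δ, hS⟩, hmax⟩ := Set.Finite.exists_maximal (Set.toFinite _) hne
  have hsaf : ∀ v, v ∉ Z → ∀ q, ¬ Saf AuR A Z v q := by
    intro v hv q hq
    obtain ⟨f', δ', h'⟩ := solved_extend hS
    have h1 := hmax (y := Z ∪ {v | ∃ q, Saf AuR A Z v q}) ⟨f', δ', h'⟩ Set.subset_union_left
    exact hv (h1 (Or.inr ⟨q, hq⟩))
  refine ⟨0, δ, ?_⟩
  refine mk_strategy _ _ _ f hS.1 ?_
  rintro u ⟨τ, hτ, hw⟩ e m he hm0 hm hf
  have hu : u ∈ Z := by
    by_contra hu
    exact no_win hsaf hu hτ hw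
  refine hS.2.2.2 e m he.2 ?_ hm hf
  intro n
  induction n with
  | zero => rw [he.1]; exact hu
  | succ n ih =>
    rw [(he.2 n).2]
    by_cases hP : (e n).1 ∈ A.P
    · have h5 := hf n hP
      have h6 := hS.2.1 _ ih hP (m n)
      rw [← h5] at h6
      exact h6
    · exact hS.2.2.1 _ ih hP (e n) (he.2 n).1 rfl

end Pool.Agent.X200.Cm
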