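import Pool.Agent.X200.Cm.Conc

/-!
# Pumping, the two words and the runs on them
-/

set_option autoImplicit false

namespace Pool.Agent.X200.Cm

open St Col

theorem iterate_fact {k : ℕ} (f : Fin k → Fin k) (i : ℕ) (hi : k ≤ i) (m : Fin k) :
    f^[i + k.factorial] m = f^[i] m := by
  -- two equal states among the first `k + 1`
  have h1 : ∃ p q : ℕ, p < q ∧ q ≤ k ∧ f^[p] m = f^[q] m := by
    have h2 : ¬ Function.Injective (fun j : Fin (k + 1) => f^[(j : ℕ)] m) := by
      intro h
      have := Fintype.card_le_of_injective _ h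
      simp at this
    unfold Function.Injective at h2
    push Not at h2
    obtain ⟨p, q, h3, h4⟩ := h2
    have h3' : f^[(p : ℕ)] m = f^[(q : ℕ)] m := h3
    have hne : (p : ℕ) ≠ (q : ℕ) := fun h => h4 (Fin.ext h)
    rcases Nat.lt_or_gt_of_ne hne with h | h
    · exact ⟨p, q, h, by omega, h3'⟩
    · exact ⟨q, p, h, by omega, h3'.symm⟩
  obtain ⟨p, q, hpq, hqk, h2⟩ := h1
  have h3 : ∀ i, p ≤ i → f^[i + (q - p)] m = f^[i] m := by
    intro i hi
    have e1 : i + (q - p) = (i - p) + q := by omega
    have e2 : i = (i - p) + p := by omega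
    rw [e1, Function.iterate_add_apply, ← h2, ← Function.iterate_add_apply, ← e2]
  have h4 : ∀ r i, p ≤ i → f^[i + r * (q - p)] m = f^[i] m := by
    intro r
    induction r with
    | zero => intro i _; simp
    | succ r ih =>
      intro i hi
      have e1 : i + (r + 1) * (q - p) = (i + (q - p)) + r * (q - p) := by ring
      rw [e1, ih _ (by omega), h3 i hi]
  obtain ⟨r, hr⟩ : (q - p) ∣ k.factorial := Nat.dvd_factorial (by omega) (by omega)
  rw [hr, mul_comm]
  exact h4 r i (by omega)

/-- The position of the letter `s`. -/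
def pos (k : ℕ) (b : Bool) : ℕ :=
  (k.factorial * k) * (k.factorial * k) + (if b then 0 else k.factorial)

/-- The length of the words. -/
def len (k : ℕ) : ℕ := pos k false + 1 + k

theorem pos_lt (k : ℕ) (b : Bool) : pos k b < len k := by
  cases b <;> simp only [pos, len] <;> simp <;> omega

theorem sq_pos {k : ℕ} (hk : 1 ≤ k) (b : Bool) : sq (pos k b) = b := by
  have hf := Nat.factorial_pos k
  cases b with
  | true =>
    simp only [sq, pos, decide_eq_true_eq]
    exact ⟨k.factorial * k, by simp⟩
  | false =>
    simp only [sq, pos, decide_eq_false_iff_not]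
    rintro ⟨m, hm⟩
    simp only [Bool.false_eq_true, if_false] at hm
    set t := k.factorial * k with ht
    have h1 : k.factorial ≤ t := by rw [ht]; exact Nat.le_mul_of_pos_right _ hk
    rcases Nat.lt_or_ge t m with h2 | h2
    · have h3 : (t + 1) * (t + 1) ≤ m * m := Nat.mul_le_mul h2 h2
      have h4 : (t + 1) * (t + 1) = t * t + 2 * t + 1 := by ring
      omega
    · have h3 : m * m ≤ t * t := Nat.mul_le_mul h2 h2
      omega

/-- The words. -/
def wd (k : ℕ) (b : Bool) (m : ℕ) : Col := if m = pos k b then s else a

theorem run_wd {k : ℕ} (hk : 1 ≤ k) (b : Bool) {w : ℕ → Col} (hw : ∀ m < len k, w m = wd k b m) :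
    ∀ m ≤ len k, Au.run w m = ab (b && decide (pos k b < m)) m := by
  intro m
  induction m with
  | zero =>
    intro _
    show ab false 0 = _
    simp
  | succ m ih =>
    intro hm
    show stp (Au.run w m) (w m) = _
    rw [ih (by omega), hw m (by omega)]
    unfold wd
    split_ifs with h
    · have h1 : ¬ pos k b < m := by omega
      have h2 : pos k b < m + 1 := by omega
      have h3 : sq m = b := by rw [h]; exact sq_pos hk b
      simp only [stp, h1, h2, h3, decide_false, decide_true, Bool.and_false, Bool.and_true,
        Bool.false_bne, Bool.false_xor]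
    · have h1 : (pos k b < m) ↔ (pos k b < m + 1) := by omega
      simp only [stp, h1]

/-- The memory after the two words is the same. -/
theorem mem_wd {k : ℕ} {δ : Fin k → Col → Fin k} {m m' : ℕ → Fin k} (h0 : m 0 = m' 0)
    (hm : ∀ t < len k, m (t + 1) = δ (m t) (wd k true t))
    (hm' : ∀ t < len k, m' (t + 1) = δ (m' t) (wd k false t)) : m (len k) = m' (len k) := by
  have gen : ∀ (m : ℕ → Fin k) (b : Bool) (t0 r : ℕ),
      (∀ t < len k, m (t + 1) = δ (m t) (wd k b t)) → t0 + r ≤ len k →
      (∀ t, t0 ≤ t → t < t0 + r → t ≠ pos k b) →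
      m (t0 + r) = (fun q => δ q a)^[r] (m t0) := by
    intro m b t0 r hm
    induction r with
    | zero => intro _ _; rfl
    | succ r ih =>
      intro h1 h2
      rw [← add_assoc, hm _ (by omega), ih (by omega) (fun t h3 h4 => h2 t h3 (by omega)),
        Function.iterate_succ_apply']
      have : wd k b (t0 + r) = a := by
        unfold wd
        rw [if_neg (h2 _ (by omega) (by omega))]
      rw [this]
  have hp : pos k false = pos k true + k.factorial := by simp [pos]
  have hk0 : k ≤ pos k true := by
    have : pos k true = (k.factorial * k) * (k.factorial * k) := by simp [pos]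
    rw [this]
    rcases Nat.eq_zero_or_pos k with h | h
    · omega
    · have h1 := Nat.factorial_pos k
      have h2 : k ≤ k.factorial * k := Nat.le_mul_of_pos_left _ h1
      exact h2.trans (Nat.le_mul_of_pos_left _ (by positivity))
  have hl : len k = pos k false + 1 + k := rfl
  set i := pos k true with hi
  set j := pos k false with hj
  -- the first word
  have a1 := gen m true 0 i hm (by omega) (by intro t _ h; omega)
  have a2 := hm i (by omega)
  have a3 := gen m true (i + 1) (k.factorial + k) hm (by omega) (by intro t h _; omega)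
  have b1 := gen m' false 0 j hm' (by omega) (by intro t _ h; omega)
  have b2 := hm' j (by omega)
  have b3 := gen m' false (j + 1) k hm' (by omega) (by intro t h _; omega)
  have ws : wd k true i = s := by simp [wd, hi]
  have ws' : wd k false j = s := by simp [wd, hj]
  have e1 : len k = i + 1 + (k.factorial + k) := by omega
  have e2 : len k = j + 1 + k := by omega
  have c1 : m (len k) = (fun q => δ q a)^[k + k.factorial]
      (δ ((fun q => δ q a)^[i] (m 0)) s) := by
    rw [e1, a3, a2, ws]
    rw [zero_add] at a1
    rw [a1, add_comm k.factorial k]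
  have c2 : m' (len k) = (fun q => δ q a)^[k] (δ ((fun q => δ q a)^[i + k.factorial] (m' 0)) s) := by
    rw [e2, b3, b2, ws']
    rw [zero_add] at b1
    rw [b1, hp]
  rw [c1, c2, iterate_fact _ _ le_rfl, iterate_fact _ _ hk0, h0]

/-- The choice `c` is correct for `b`. -/
def good (b : Bool) (c : Col) : ℕ := if c = y then bit b else bit (!b)

/-- The run after the choice. -/
theorem run_after {k : ℕ} (hk : 1 ≤ k) (b : Bool) {w : ℕ → Col} (hw : ∀ m < len k, w m = wd k b m)
    (hc : w (len k) = x ∨ w (len k) = y) (ha : ∀ j < 2 * len k + 1, w (len k + 1 + j) = a) :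
    ∀ j ≤ 2 * len k + good b (w (len k)),
      Au.run w (len k + 1 + j) = dd (2 * len k + good b (w (len k)) - j) := by
  intro j
  induction j with
  | zero =>
    intro _
    show stp (Au.run w (len k)) (w (len k)) = _
    rw [run_wd hk b hw _ le_rfl]
    have h1 := pos_lt k b
    have h2 : (b && decide (pos k b < len k)) = b := by simp [h1]
    rw [h2]
    rcases hc with hc | hc
    · rw [hc]; simp [stp, good]
    · rw [hc]; simp [stp, good]
  | succ j ih =>
    intro hj
    have hg : good b (w (len k)) ≤ 1 := by
      unfold good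
      split_ifs
      · exact bit_le _
      · exact bit_le _
    have h1 : Au.run w (len k + 1 + (j + 1)) = stp (Au.run w (len k + 1 + j)) (w (len k + 1 + j)) :=
      rfl
    rw [h1, ih (by omega), ha j (by omega)]
    obtain ⟨r, hr⟩ : ∃ r, 2 * len k + good b (w (len k)) - j = r + 1 :=
      ⟨2 * len k + good b (w (len k)) - (j + 1), by omega⟩
    rw [hr]
    simp only [stp]
    congr 1
    omega

/-- The wrong choice loses. -/
theorem run_wrong {k : ℕ} (hk : 1 ≤ k) (b : Bool) {w : ℕ → Col} (hw : ∀ m < len k, w m = wd k b m)
    (hc : w (len k) = x ∨ w (len k) = y) (ha : ∀ j < 2 * len k + 1, w (len k + 1 + j) = a)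
    (hg : good b (w (len k)) = 0) : Au.run w (len k + 1 + (2 * len k + 1)) = bot := by
  have h1 := run_after hk b hw hc ha (2 * len k) (by omega)
  have h2 : Au.run w (len k + 1 + (2 * len k + 1)) =
      stp (Au.run w (len k + 1 + 2 * len k)) (w (len k + 1 + 2 * len k)) := rfl
  rw [h2, h1, hg, ha (2 * len k) (by omega)]
  simp [stp]

/-- The correct choice wins. -/
theorem run_right {k : ℕ} (hk : 1 ≤ k) (b : Bool) {w : ℕ → Col} (hw : ∀ m < len k, w m = wd k b m)
    (hc : w (len k) = x ∨ w (len k) = y) (ha : ∀ j < 2 * len k + 1, w (len k + 1 + j) = a)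
    (hg : good b (w (len k)) = 1) (hgg : w (len k + 1 + (2 * len k + 1)) = g) :
    ∀ n, Au.run w n ≠ bot := by
  have h1 : Au.run w (len k + 1 + (2 * len k + 1) + 1) = top := by
    show stp (Au.run w (len k + 1 + (2 * len k + 1))) (w (len k + 1 + (2 * len k + 1))) = top
    rw [run_after hk b hw hc ha _ (by omega), hgg]
    rfl
  have h2 : ∀ r, Au.run w (len k + 1 + (2 * len k + 1) + 1 + r) = top := by
    intro r
    induction r with
    | zero => exact h1
    | succ r ih =>
      show stp (Au.run w (len k + 1 + (2 * len k + 1) + 1 + r)) _ = top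
      rw [ih]
      cases w (len k + 1 + (2 * len k + 1) + 1 + r) <;> rfl
  intro n
  rcases Nat.lt_or_ge n (len k + 1) with h | h
  · rw [run_wd hk b hw n (by omega)]
    simp
  · rcases Nat.lt_or_ge n (len k + 1 + (2 * len k + 1) + 1) with h' | h'
    · have := run_after hk b hw hc ha (n - (len k + 1)) (by omega)
      rw [show len k + 1 + (n - (len k + 1)) = n by omega] at this
      rw [this]
      simp
    · have := h2 (n - (len k + 1 + (2 * len k + 1) + 1))
      rw [show len k + 1 + (2 * len k + 1) + 1 + (n - (len k + 1 + (2 * len k + 1) + 1)) = n by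
        omega] at this
      rw [this]
      simp

end Pool.Agent.X200.Cm
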